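import Pool.Agent.Lib.MP_65983e_an.Hx

/-!
# Flat chains on the unit sphere
-/

set_option autoImplicit false
set_option linter.unusedSectionVars false

namespace Pool.Agent.MP_65983e_an

namespace Hx

variable {𝕜 : Type*} [RCLike 𝕜] {n : ℕ}

lemma two_le_of_fst {u : Hx 𝕜 n} (h : fst u = 1) : 2 ≤ ‖u + e₁‖ := by
  have h1 := fst_le (u + e₁)
  rw [fst_add, h] at h1
  have h2 : ‖(1 : 𝕜) + fst (e₁ : Hx 𝕜 n)‖ = 2 := by
    have : (1 : 𝕜) + fst (e₁ : Hx 𝕜 n) = 2 := by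
      simp only [e₁, fst_mk]
      norm_num
    rw [this]
    exact RCLike.norm_ofNat 2
  linarith

lemma two_le_of_snd {u : Hx 𝕜 n} (h : snd u = 1) : 2 ≤ ‖u + e₂‖ := by
  have h1 := snd_le (u + e₂)
  rw [snd_add, h] at h1
  have h2 : ‖(1 : 𝕜) + snd (e₂ : Hx 𝕜 n)‖ = 2 := by
    have : (1 : 𝕜) + snd (e₂ : Hx 𝕜 n) = 2 := by
      simp only [e₂, snd_mk]
      norm_num
    rw [this]
    exact RCLike.norm_ofNat 2
  linarith

/-- The vector `(s - 1, 1)`. -/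
noncomputable def vq : Hx 𝕜 n := mk ((sp n - 1 : ℝ) : 𝕜) 1

lemma norm_vq : ‖(vq : Hx 𝕜 n)‖ = 1 := norm_mk_one' norm_ofReal_sp.le

lemma norm_ofReal_nonneg {r : ℝ} (hr : 0 ≤ r) : ‖(r : 𝕜)‖ = r := by
  rw [RCLike.norm_ofReal, abs_of_nonneg hr]

lemma two_le_vq_vp : 2 ≤ ‖(vq + vp : Hx 𝕜 n)‖ := by
  have h1 := add_le (vq + vp : Hx 𝕜 n)
  have hs := sp_pos n
  have h2 : fst (vq + vp : Hx 𝕜 n) = ((sp n : ℝ) : 𝕜) := by
    simp only [vq, vp, fst_add, fst_mk]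
    push_cast
    ring
  have h3 : snd (vq + vp : Hx 𝕜 n) = ((sp n : ℝ) : 𝕜) := by
    simp only [vq, vp, snd_add, snd_mk]
    push_cast
    ring
  rw [h2, h3, norm_ofReal_nonneg hs.le] at h1
  nlinarith

lemma chain {V : Type*} [SeminormedAddCommGroup V] (P : Hx 𝕜 n → V) {η : ℝ}
    (hph : ∀ (α : 𝕜) (u : Hx 𝕜 n), ‖α‖ = 1 → P (α • u) = P u)
    (hst : ∀ u v : Hx 𝕜 n, ‖u‖ = 1 → ‖v‖ = 1 → 2 ≤ ‖u + v‖ → ‖P u - P v‖ ≤ η)
    {u : Hx 𝕜 n} (hu : ‖u‖ = 1) : ‖P u - P e₁‖ ≤ 4 * η := by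
  have hη : 0 ≤ η := (norm_nonneg _).trans
    (hst e₁ e₁ norm_e₁ norm_e₁ (two_le_of_fst rfl))
  -- vectors with unit first coordinate
  have A : ∀ w : Hx 𝕜 n, ‖w‖ = 1 → ‖fst w‖ = 1 → ‖P w - P e₁‖ ≤ η := by
    intro w hw hw1
    obtain ⟨α, hα, hα2⟩ := RCLike.exists_norm_eq_mul_self (fst w)
    rw [← hph α w hα]
    refine hst _ _ (by rw [norm_smul, hα, hw, mul_one]) norm_e₁ (two_le_of_fst ?_)
    rw [fst_smul, ← hα2, hw1]
    simp
  have B : ∀ w : Hx 𝕜 n, ‖w‖ = 1 → ‖snd w‖ = 1 → ‖P w - P e₂‖ ≤ η := by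
    intro w hw hw1
    obtain ⟨α, hα, hα2⟩ := RCLike.exists_norm_eq_mul_self (snd w)
    rw [← hph α w hα]
    refine hst _ _ (by rw [norm_smul, hα, hw, mul_one]) norm_e₂ (two_le_of_snd ?_)
    rw [snd_smul, ← hα2, hw1]
    simp
  have hvq2 : ‖snd (vq : Hx 𝕜 n)‖ = 1 := by simp [vq]
  have hvp1 : ‖fst (vp : Hx 𝕜 n)‖ = 1 := by simp [vp]
  have C1 : ‖P (vq : Hx 𝕜 n) - P e₂‖ ≤ η := B vq norm_vq hvq2
  have C2 : ‖P (vq : Hx 𝕜 n) - P vp‖ ≤ η := hst _ _ norm_vq norm_vp two_le_vq_vp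
  have C3 : ‖P (vp : Hx 𝕜 n) - P e₁‖ ≤ η := A vp norm_vp hvp1
  rcases norm_cases u with h | h | h
  · have := A u hu (by rw [← h, hu])
    linarith
  · have h1 := B u hu (by rw [← h, hu])
    have h2 : P u - P e₁ = (P u - P e₂) + -(P vq - P e₂) + (P vq - P vp) + (P vp - P e₁) := by
      abel
    rw [h2]
    have h3 := norm_add₄_le (a := P u - P e₂) (b := -(P vq - P e₂)) (c := P vq - P vp)
      (d := P vp - P e₁)
    rw [norm_neg] at h3
    linarith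
  · rw [hu, mul_one] at h
    have hs := sp_gt n
    obtain ⟨α, hα, hα2⟩ := RCLike.exists_norm_eq_mul_self (fst u)
    obtain ⟨β, hβ, hβ2⟩ := RCLike.exists_norm_eq_mul_self (snd u)
    have hα0 : α ≠ 0 := by
      intro h0
      rw [h0, norm_zero] at hα
      exact zero_ne_one hα
    have hβ0 : β ≠ 0 := by
      intro h0
      rw [h0, norm_zero] at hβ
      exact zero_ne_one hβ
    set w : Hx 𝕜 n := mk α⁻¹ (β⁻¹ * ((sp n - 1 : ℝ) : 𝕜)) with hw
    have hαw : α • w = mk 1 (α * (β⁻¹ * ((sp n - 1 : ℝ) : 𝕜))) := by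
      refine ext' ?_ ?_
      · simp [hw, hα0]
      · simp [hw]
    have hwn : ‖w‖ = 1 := by
      have h1 : ‖α • w‖ = 1 := by
        rw [hαw]
        refine norm_mk_one ?_
        rw [norm_mul, norm_mul, norm_inv, hα, hβ, norm_ofReal_sp]
        simp
      rwa [norm_smul, hα, one_mul] at h1
    have hw1 : ‖fst w‖ = 1 := by
      rw [hw, fst_mk, norm_inv, hα, inv_one]
    have D1 := A w hwn hw1
    have D2 : ‖P u - P w‖ ≤ η := by
      refine hst _ _ hu hwn ?_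
      have h1 := add_le (u + w)
      have h2 : ‖fst (u + w)‖ = ‖fst u‖ + 1 := by
        have h3 : ‖α * fst (u + w)‖ = ‖fst (u + w)‖ := by rw [norm_mul, hα, one_mul]
        rw [← h3]
        have h4 : α * fst (u + w) = ((‖fst u‖ + 1 : ℝ) : 𝕜) := by
          rw [fst_add, mul_add, ← hα2, hw, fst_mk, mul_inv_cancel₀ hα0]
          push_cast
          rfl
        rw [h4, norm_ofReal_nonneg (by positivity)]
      have h3 : ‖snd (u + w)‖ = ‖snd u‖ + (sp n - 1) := by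
        have h3 : ‖β * snd (u + w)‖ = ‖snd (u + w)‖ := by rw [norm_mul, hβ, one_mul]
        rw [← h3]
        have h4 : β * snd (u + w) = ((‖snd u‖ + (sp n - 1) : ℝ) : 𝕜) := by
          rw [snd_add, mul_add, ← hβ2, hw, snd_mk, ← mul_assoc, mul_inv_cancel₀ hβ0, one_mul]
          push_cast
          rfl
        rw [h4, norm_ofReal_nonneg (by
          have := norm_nonneg (snd u)
          linarith)]
      rw [h2, h3] at h1
      have h4 : sp n * 2 ≤ sp n * ‖u + w‖ := by linarith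
      exact le_of_mul_le_mul_left h4 (sp_pos n)
    have h5 : P u - P e₁ = (P u - P w) + (P w - P e₁) := by abel
    rw [h5]
    have := norm_add_le (P u - P w) (P w - P e₁)
    linarith

end Hx

end Pool.Agent.MP_65983e_an
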