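import Mathlib

/-!
# Guarded and cofinally Fraisse Banach spaces, omega-categoricity
-/

set_option autoImplicit false
set_option linter.unusedSectionVars false

namespace Pool.Agent.MP_65983e_an

open Filter Topology

section Fraisse

variable {𝕜 : Type*} [RCLike 𝕜] {X : Type*} [NormedAddCommGroup X] [NormedSpace 𝕜 X]

/-- `Emb E δ` is the set of linear maps `T : E → X` with
`(1 + δ)⁻¹ ‖x‖ ≤ ‖T x‖ ≤ (1 + δ) ‖x‖` for all `x ∈ E`. -/
def Emb (E : Submodule 𝕜 X) (δ : ℝ) : Set (E →L[𝕜] X) :=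
  {T | ∀ x : E, (1 + δ)⁻¹ * ‖x‖ ≤ ‖T x‖ ∧ ‖T x‖ ≤ (1 + δ) * ‖x‖}

/-- `Iso(X)` acts `ε`-transitively on the set `S` of maps `E → X`. -/
def EpsTransitive {E : Submodule 𝕜 X} (ε : ℝ) (S : Set (E →L[𝕜] X)) : Prop :=
  ∀ ι ∈ S, ∀ ι' ∈ S, ∃ T : X ≃ₗᵢ[𝕜] X,
    ‖ι' - (T.toContinuousLinearEquiv : X →L[𝕜] X).comp ι‖ < ε

variable (𝕜 X)

/-- Guarded Fraisse Banach spaces. -/
def GuardedFraisse : Prop :=
  ∀ E : Submodule 𝕜 X, FiniteDimensional 𝕜 E → ∀ ε : ℝ, 0 < ε →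
    ∃ δ : ℝ, 0 < δ ∧ ∃ (F : Submodule 𝕜 X) (h : E ≤ F), FiniteDimensional 𝕜 F ∧
      EpsTransitive ε {j : E →L[𝕜] X | ∃ ι ∈ Emb F δ, ∀ x : E, j x = ι ⟨x, h x.2⟩}

/-- Cofinally Fraisse Banach spaces. -/
def CofinallyFraisse : Prop :=
  ∀ ε : ℝ, 0 < ε → ∀ E : Submodule 𝕜 X, FiniteDimensional 𝕜 E →
    ∃ F : Submodule 𝕜 X, E ≤ F ∧ FiniteDimensional 𝕜 F ∧
      ∃ δ : ℝ, 0 < δ ∧ EpsTransitive ε (Emb F δ)

end Fraisse

section Omega

variable {𝕜 : Type*} [RCLike 𝕜] {X : Type*} [NormedAddCommGroup X] [NormedSpace 𝕜 X]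

/-- The diagonal action of an isometry on tuples of elements of the closed unit ball. -/
def act {n : ℕ} (T : X ≃ₗᵢ[𝕜] X) (z : Fin n → Metric.closedBall (0 : X) 1) :
    Fin n → Metric.closedBall (0 : X) 1 :=
  fun i => ⟨T (z i), by
    rw [mem_closedBall_zero_iff, T.norm_map, ← mem_closedBall_zero_iff]
    exact (z i).2⟩

variable (𝕜)

/-- The closure of the orbit of a tuple, for the max-metric. -/
def orbitClosure {n : ℕ} (z : Fin n → Metric.closedBall (0 : X) 1) :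
    Set (Fin n → Metric.closedBall (0 : X) 1) :=
  closure {w | ∃ T : X ≃ₗᵢ[𝕜] X, w = act T z}

variable (X)

/-- The set of orbit closures in the `n`-th power of the closed unit ball. -/
def OC (n : ℕ) : Type _ :=
  {A : Set (Fin n → Metric.closedBall (0 : X) 1) //
    ∃ z : Fin n → Metric.closedBall (0 : X) 1, A = orbitClosure 𝕜 z}

variable {𝕜 X}

/-- The distance between two orbit closures. -/
noncomputable def rho {n : ℕ} (A B : OC 𝕜 X n) : ℝ :=
  sInf {r : ℝ | ∃ z ∈ A.1, ∃ w ∈ B.1, r = dist z w}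

lemma dist_act {n : ℕ} (T : X ≃ₗᵢ[𝕜] X) (z w : Fin n → Metric.closedBall (0 : X) 1) :
    dist (act T z) (act T w) = dist z w := by
  rw [dist_pi_def, dist_pi_def]
  congr 2
  funext i
  have h : dist (act T z i) (act T w i) = dist (z i) (w i) := T.dist_map (z i : X) (w i : X)
  exact NNReal.eq h

lemma act_act {n : ℕ} (S T : X ≃ₗᵢ[𝕜] X) (z : Fin n → Metric.closedBall (0 : X) 1) :
    act S (act T z) = act (T.trans S) z := rfl

lemma mem_orbitClosure_iff {n : ℕ} {z w : Fin n → Metric.closedBall (0 : X) 1} :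
    w ∈ orbitClosure 𝕜 z ↔ ∀ ε > 0, ∃ T : X ≃ₗᵢ[𝕜] X, dist w (act T z) < ε := by
  unfold orbitClosure
  rw [Metric.mem_closure_iff]
  constructor
  · intro h ε hε
    obtain ⟨b, ⟨T, rfl⟩, hb⟩ := h ε hε
    exact ⟨T, hb⟩
  · intro h ε hε
    obtain ⟨T, hT⟩ := h ε hε
    exact ⟨_, ⟨T, rfl⟩, hT⟩

lemma act_mem {n : ℕ} {z w : Fin n → Metric.closedBall (0 : X) 1} (T : X ≃ₗᵢ[𝕜] X)
    (h : w ∈ orbitClosure 𝕜 z) : act T w ∈ orbitClosure 𝕜 z := by
  rw [mem_orbitClosure_iff] at h ⊢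
  intro ε hε
  obtain ⟨S, hS⟩ := h ε hε
  refine ⟨S.trans T, ?_⟩
  rw [← act_act, dist_act]
  exact hS

lemma self_mem {n : ℕ} (z : Fin n → Metric.closedBall (0 : X) 1) : z ∈ orbitClosure 𝕜 z := by
  rw [mem_orbitClosure_iff]
  intro ε hε
  refine ⟨LinearIsometryEquiv.refl 𝕜 X, ?_⟩
  have : act (LinearIsometryEquiv.refl 𝕜 X) z = z := rfl
  rw [this, dist_self]
  exact hε

/-- Two points of one orbit closure are almost in one orbit. -/
lemma almost_orbit {n : ℕ} {z w w' : Fin n → Metric.closedBall (0 : X) 1}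
    (h : w ∈ orbitClosure 𝕜 z) (h' : w' ∈ orbitClosure 𝕜 z) {ε : ℝ} (hε : 0 < ε) :
    ∃ T : X ≃ₗᵢ[𝕜] X, dist w (act T w') < ε := by
  rw [mem_orbitClosure_iff] at h h'
  obtain ⟨S, hS⟩ := h (ε / 2) (by positivity)
  obtain ⟨R, hR⟩ := h' (ε / 2) (by positivity)
  refine ⟨R.symm.trans S, ?_⟩
  have h1 : dist (act S z) (act (R.symm.trans S) w') < ε / 2 := by
    have h2 : act S z = act (R.symm.trans S) (act R z) := by
      rw [act_act]
      congr 1
      ext x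
      simp
    rw [h2, dist_act, dist_comm]
    exact hR
  have := dist_triangle w (act S z) (act (R.symm.trans S) w')
  linarith

section Metric

variable {n : ℕ}

lemma OC.mem_act (A : OC 𝕜 X n) {w : Fin n → Metric.closedBall (0 : X) 1} (T : X ≃ₗᵢ[𝕜] X)
    (h : w ∈ A.1) : act T w ∈ A.1 := by
  obtain ⟨z, hz⟩ := A.2
  rw [hz] at h ⊢
  exact act_mem T h

lemma OC.almost (A : OC 𝕜 X n) {w w' : Fin n → Metric.closedBall (0 : X) 1} (h : w ∈ A.1)
    (h' : w' ∈ A.1) {ε : ℝ} (hε : 0 < ε) : ∃ T : X ≃ₗᵢ[𝕜] X, dist w (act T w') < ε := by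
  obtain ⟨z, hz⟩ := A.2
  rw [hz] at h h'
  exact almost_orbit h h' hε

lemma OC.nonempty (A : OC 𝕜 X n) : ∃ z, z ∈ A.1 := by
  obtain ⟨z, hz⟩ := A.2
  exact ⟨z, by rw [hz]; exact self_mem z⟩

lemma OC.isClosed (A : OC 𝕜 X n) : IsClosed A.1 := by
  obtain ⟨z, hz⟩ := A.2
  rw [hz]
  exact isClosed_closure

lemma rho_bdd (A B : OC 𝕜 X n) : BddBelow {r : ℝ | ∃ z ∈ A.1, ∃ w ∈ B.1, r = dist z w} :=
  ⟨0, by rintro r ⟨z, _, w, _, rfl⟩; exact dist_nonneg⟩

lemma rho_nonempty (A B : OC 𝕜 X n) : {r : ℝ | ∃ z ∈ A.1, ∃ w ∈ B.1, r = dist z w}.Nonempty := by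
  obtain ⟨z, hz⟩ := A.nonempty
  obtain ⟨w, hw⟩ := B.nonempty
  exact ⟨_, z, hz, w, hw, rfl⟩

lemma rho_le {A B : OC 𝕜 X n} {z w : Fin n → Metric.closedBall (0 : X) 1} (hz : z ∈ A.1)
    (hw : w ∈ B.1) : rho A B ≤ dist z w := csInf_le (rho_bdd A B) ⟨z, hz, w, hw, rfl⟩

lemma rho_nonneg (A B : OC 𝕜 X n) : 0 ≤ rho A B :=
  Real.sInf_nonneg (by rintro r ⟨z, _, w, _, rfl⟩; exact dist_nonneg)

lemma exists_lt_rho (A B : OC 𝕜 X n) {ε : ℝ} (hε : 0 < ε) :
    ∃ z ∈ A.1, ∃ w ∈ B.1, dist z w < rho A B + ε := by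
  obtain ⟨r, ⟨z, hz, w, hw, rfl⟩, hr⟩ := exists_lt_of_csInf_lt (rho_nonempty A B)
    (show rho A B < rho A B + ε by linarith)
  exact ⟨z, hz, w, hw, hr⟩

noncomputable instance : MetricSpace (OC 𝕜 X n) where
  dist := rho
  dist_self A := by
    obtain ⟨z, hz⟩ := A.nonempty
    have h1 := rho_le hz hz
    rw [dist_self] at h1
    exact le_antisymm h1 (rho_nonneg A A)
  dist_comm A B := by
    show rho A B = rho B A
    unfold rho
    congr 1
    ext r
    constructor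
    · rintro ⟨z, hz, w, hw, rfl⟩
      exact ⟨w, hw, z, hz, dist_comm _ _⟩
    · rintro ⟨z, hz, w, hw, rfl⟩
      exact ⟨w, hw, z, hz, dist_comm _ _⟩
  dist_triangle A B C := by
    show rho A C ≤ rho A B + rho B C
    refine le_of_forall_pos_le_add (fun ε hε => ?_)
    obtain ⟨z, hz, w, hw, h1⟩ := exists_lt_rho A B (ε := ε / 3) (by positivity)
    obtain ⟨w', hw', v, hv, h2⟩ := exists_lt_rho B C (ε := ε / 3) (by positivity)
    obtain ⟨T, hT⟩ := B.almost hw hw' (ε := ε / 3) (by positivity)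
    have h3 := rho_le hz (C.mem_act T hv)
    have h4 := dist_triangle4 z w (act T w') (act T v)
    rw [dist_act] at h4
    linarith
  eq_of_dist_eq_zero := by
    intro A B hAB
    have h0 : rho A B = 0 := hAB
    have key : ∀ A B : OC 𝕜 X n, rho A B = 0 → A.1 ⊆ B.1 := by
      intro A B hAB a ha
      rw [← B.isClosed.closure_eq, Metric.mem_closure_iff]
      intro ε hε
      obtain ⟨z, hz, w, hw, h1⟩ := exists_lt_rho A B (ε := ε / 2) (by positivity)
      obtain ⟨T, hT⟩ := A.almost ha hz (ε := ε / 2) (by positivity)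
      refine ⟨act T w, B.mem_act T hw, ?_⟩
      have h2 := dist_triangle a (act T z) (act T w)
      rw [dist_act] at h2
      linarith
    have hBA : rho B A = 0 := by
      have h1 : rho A B = rho B A := by
        unfold rho
        congr 1
        ext r
        constructor
        · rintro ⟨z, hz, w, hw, rfl⟩
          exact ⟨w, hw, z, hz, dist_comm _ _⟩
        · rintro ⟨z, hz, w, hw, rfl⟩
          exact ⟨w, hw, z, hz, dist_comm _ _⟩
      rw [← h1]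
      exact h0
    exact Subtype.ext (Set.Subset.antisymm (key A B h0) (key B A hBA))

end Metric

variable (𝕜 X)

/-- `X` is omega-categorical: for each `n`, the metric space of orbit closures of `n`-tuples of
elements of the closed unit ball is compact. -/
def OmegaCategorical : Prop := ∀ n : ℕ, CompactSpace (OC 𝕜 X n)

end Omega

end Pool.Agent.MP_65983e_an
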