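import Pool.Agent.Lib.MP_65983e_an.Piece
import Pool.Agent.Lib.MP_65983e_an.Defs

/-!
# The sum space is cofinally Fraisse
-/

set_option autoImplicit false
set_option linter.unusedSectionVars false

namespace Pool.Agent.MP_65983e_an

open Filter Topology

variable {𝕜 : Type*} [RCLike 𝕜]

/-- The projection on the first `m` coordinates. -/
noncomputable def PP (m : ℕ) : XX 𝕜 →L[𝕜] XX 𝕜 := ∑ j ∈ Finset.range m, (inj j).comp (ev j)

lemma PP_apply (m : ℕ) (x : XX 𝕜) : PP m x = ∑ j ∈ Finset.range m, inj j (ev j x) := by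
  unfold PP
  rw [sum_apply]
  rfl

lemma ev_PP (m n : ℕ) (x : XX 𝕜) : ev n (PP m x) = if n < m then ev n x else 0 := by
  rw [PP_apply, map_sum]
  by_cases h : n < m
  · rw [if_pos h, Finset.sum_eq_single_of_mem n (Finset.mem_range.mpr h)]
    · rw [ev_inj_self]
    · intro j _ hj
      rw [ev_inj_ne hj.symm]
  · rw [if_neg h]
    refine Finset.sum_eq_zero (fun j hj => ?_)
    rw [Finset.mem_range] at hj
    rw [ev_inj_ne (by omega)]

lemma PP_inj {m j : ℕ} (h : j < m) (u : Hx 𝕜 j) : PP m (inj j u) = inj j u := by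
  refine ext_ev (fun n => ?_)
  rw [ev_PP]
  by_cases h' : n < m
  · rw [if_pos h']
  · rw [if_neg h', ev_inj_ne (by omega)]

lemma PP_tendsto (x : XX 𝕜) : Tendsto (fun m => PP m x) atTop (𝓝 x) := by
  have h := (lp.hasSum_single (E := fun n : ℕ => Hx 𝕜 n) (p := 2) (by norm_num) x).tendsto_sum_nat
  refine h.congr (fun m => ?_)
  rw [PP_apply]
  rfl

/-- Uniform approximation on finite-dimensional subspaces. -/
lemma unif (E : Submodule 𝕜 (XX 𝕜)) [FiniteDimensional 𝕜 E] {θ : ℝ} (hθ : 0 < θ) :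
    ∃ k : ℕ, ∀ m, k ≤ m → ∀ e ∈ E, ‖e - PP m e‖ ≤ θ * ‖e‖ := by
  let b := Module.finBasis 𝕜 E
  let L := b.equivFunL
  set Λ : ℝ := ‖(L : E →L[𝕜] (Fin (Module.finrank 𝕜 E) → 𝕜))‖ with hΛ
  have h1 : Tendsto (fun m => ∑ i, ‖(b i : XX 𝕜) - PP m (b i : XX 𝕜)‖) atTop (𝓝 0) := by
    have h2 : ∀ i ∈ (Finset.univ : Finset (Fin (Module.finrank 𝕜 E))),
        Tendsto (fun m => ‖(b i : XX 𝕜) - PP m (b i : XX 𝕜)‖) atTop (𝓝 0) := by
      intro i _
      have h3 := (PP_tendsto (b i : XX 𝕜)).const_sub (b i : XX 𝕜)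
      rw [sub_self] at h3
      simpa using h3.norm
    have := tendsto_finsetSum _ h2
    simpa using this
  have hΛ0 : 0 ≤ Λ := by
    rw [hΛ]
    exact norm_nonneg (L : E →L[𝕜] (Fin (Module.finrank 𝕜 E) → 𝕜))
  have h2 : ∀ᶠ m in atTop, ∑ i, ‖(b i : XX 𝕜) - PP m (b i : XX 𝕜)‖ ≤ θ / (Λ + 1) :=
    h1.eventually (ge_mem_nhds (by positivity))
  obtain ⟨k, hk⟩ := eventually_atTop.mp h2
  refine ⟨k, fun m hm e he => ?_⟩
  have h3 : e - PP m e = ∑ i, (L ⟨e, he⟩ i) • ((b i : XX 𝕜) - PP m (b i : XX 𝕜)) := by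
    have h4 : (⟨e, he⟩ : E) = ∑ i, (L ⟨e, he⟩ i) • b i := (b.sum_equivFun ⟨e, he⟩).symm
    have h5 : e = ∑ i, (L ⟨e, he⟩ i) • (b i : XX 𝕜) := by
      have := congrArg (fun z : E => (z : XX 𝕜)) h4
      simpa using this
    conv_lhs => rw [h5]
    rw [map_sum, ← Finset.sum_sub_distrib]
    refine Finset.sum_congr rfl fun i _ => ?_
    rw [map_smul, smul_sub]
  rw [h3]
  refine (norm_sum_le _ _).trans ?_
  have h6 : ∀ i, ‖(L ⟨e, he⟩ i) • ((b i : XX 𝕜) - PP m (b i : XX 𝕜))‖ ≤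
      (Λ * ‖e‖) * ‖(b i : XX 𝕜) - PP m (b i : XX 𝕜)‖ := by
    intro i
    rw [norm_smul]
    have h7 : ‖L ⟨e, he⟩ i‖ ≤ Λ * ‖e‖ := by
      refine (norm_le_pi_norm (L ⟨e, he⟩) i).trans ?_
      exact (L : E →L[𝕜] (Fin (Module.finrank 𝕜 E) → 𝕜)).le_opNorm ⟨e, he⟩
    gcongr
  refine (Finset.sum_le_sum fun i _ => h6 i).trans ?_
  rw [← Finset.mul_sum]
  have h8 : Λ * ‖e‖ * ∑ i, ‖(b i : XX 𝕜) - PP m (b i : XX 𝕜)‖ ≤ Λ * ‖e‖ * (θ / (Λ + 1)) := by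
    have := hk m hm
    gcongr
  refine h8.trans ?_
  have h9 : Λ * ‖e‖ * (θ / (Λ + 1)) = θ * ‖e‖ * (Λ / (Λ + 1)) := by ring
  rw [h9]
  have h10 : Λ / (Λ + 1) ≤ 1 := by
    rw [div_le_one (by positivity)]
    linarith
  have h11 : 0 ≤ θ * ‖e‖ := by positivity
  nlinarith

/-- A left inverse depending on finitely many coordinates. -/
lemma exists_left (E : Submodule 𝕜 (XX 𝕜)) [FiniteDimensional 𝕜 E] {k : ℕ}
    (hk : ∀ e ∈ E, ‖e - PP k e‖ ≤ 1 / 2 * ‖e‖) : ∃ L : XX 𝕜 →L[𝕜] XX 𝕜,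
      (∀ x, L x ∈ E) ∧ (∀ e ∈ E, L e = e) ∧ ∀ x y, (∀ j, j < k → ev j x = ev j y) → L x = L y := by
  let Φ : XX 𝕜 →L[𝕜] (∀ j : Fin k, Hx 𝕜 j) := ContinuousLinearMap.pi fun j => ev (j : ℕ)
  have hinj : Function.Injective (Φ.comp E.subtypeL) := by
    rw [injective_iff_map_eq_zero]
    intro e he
    have h1 : PP k (e : XX 𝕜) = 0 := by
      refine ext_ev (fun n => ?_)
      rw [ev_PP, map_zero]
      by_cases h : n < k
      · rw [if_pos h]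
        exact congrFun he ⟨n, h⟩
      · rw [if_neg h]
    have h2 := hk e e.2
    rw [h1, sub_zero] at h2
    have h3 : ‖(e : XX 𝕜)‖ ≤ 0 := by linarith [norm_nonneg (e : XX 𝕜)]
    exact Subtype.ext (norm_le_zero_iff.mp h3)
  obtain ⟨g, hg⟩ := ContinuousLinearMap.HasLeftInverse.of_injective_of_finiteDimensional hinj
  refine ⟨E.subtypeL.comp (g.comp Φ), fun x => (g (Φ x)).2, fun e he => ?_, fun x y h => ?_⟩
  · have := hg ⟨e, he⟩
    exact congrArg (fun z : E => (z : XX 𝕜)) this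
  · have : Φ x = Φ y := by
      funext j
      exact h j j.2
    show ((g (Φ x) : E) : XX 𝕜) = (g (Φ y) : E)
    rw [this]

lemma exists_min_pos (d : ℕ → ℝ) (hd : ∀ j, 0 < d j) (m : ℕ) :
    ∃ δ : ℝ, 0 < δ ∧ ∀ j, j < m → δ ≤ d j := by
  induction m with
  | zero => exact ⟨1, one_pos, fun j hj => absurd hj (Nat.not_lt_zero j)⟩
  | succ m ih =>
    obtain ⟨δ, h1, h2⟩ := ih
    refine ⟨min δ (d m), lt_min h1 (hd m), fun j hj => ?_⟩
    rcases Nat.lt_succ_iff_lt_or_eq.mp hj with h | h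
    · exact (min_le_left _ _).trans (h2 j h)
    · rw [h]
      exact min_le_right _ _

section General

variable {X : Type*} [NormedAddCommGroup X] [NormedSpace 𝕜 X]

lemma transitive_of_rigid {F : Submodule 𝕜 X} {δ ε : ℝ} (hε : 0 < ε)
    (h : ∀ ι ∈ Emb F δ, ∃ G : X ≃ₗᵢ[𝕜] X, ∀ f : F, ‖ι f - G f‖ ≤ ε / 3 * ‖f‖) :
    EpsTransitive ε (Emb F δ) := by
  intro ι hι ι' hι'
  obtain ⟨G, hG⟩ := h ι hι
  obtain ⟨G', hG'⟩ := h ι' hι'
  refine ⟨G.symm.trans G', ?_⟩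
  have h1 : ‖ι' - ((G.symm.trans G').toContinuousLinearEquiv : X →L[𝕜] X).comp ι‖ ≤
      2 * ε / 3 := by
    refine ContinuousLinearMap.opNorm_le_bound _ (by positivity) (fun f => ?_)
    have h2 : (ι' - ((G.symm.trans G').toContinuousLinearEquiv : X →L[𝕜] X).comp ι) f =
        (ι' f - G' f) + G' (G.symm (G f - ι f)) := by
      rw [map_sub G.symm, map_sub G', LinearIsometryEquiv.symm_apply_apply]
      show ι' f - G' (G.symm (ι f)) = _
      abel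
    rw [h2]
    refine (norm_add_le _ _).trans ?_
    rw [G'.norm_map, G.symm.norm_map, norm_sub_rev (G f)]
    have h3 := hG f
    have h4 := hG' f
    linarith
  linarith

lemma Emb.abs_le {F : Submodule 𝕜 X} {δ : ℝ} (hδ : 0 < δ) {ι : F →L[𝕜] X} (h : ι ∈ Emb F δ)
    (f : F) : |‖ι f‖ - ‖f‖| ≤ δ * ‖f‖ := by
  obtain ⟨h1, h2⟩ := h f
  have h3 : 1 - δ ≤ (1 + δ)⁻¹ := by
    rw [← one_div, le_div_iff₀ (by linarith)]
    nlinarith
  have h4 : (1 - δ) * ‖f‖ ≤ (1 + δ)⁻¹ * ‖f‖ := by gcongr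
  rw [_root_.abs_le]
  constructor <;> linarith

end General

theorem cofinallyFraisse : CofinallyFraisse 𝕜 (XX 𝕜) := by
  intro ε hε E hE
  -- the moduli of the pieces
  have hp : ∀ j : ℕ, ∃ δ : ℝ, 0 < δ ∧ ∀ T : Hx 𝕜 j →L[𝕜] XX 𝕜,
    (∀ u, |‖T u‖ - ‖u‖| ≤ δ * ‖u‖) →
      ∃ g : Hx 𝕜 j ≃ₗᵢ[𝕜] Hx 𝕜 j, ∀ u, ‖T u - inj j (g u)‖ ≤ (ε / 32 * (1 / 2) ^ j) * ‖u‖ :=
    fun j => piece j (by positivity)
  choose d hd hpiece using hp
  obtain ⟨k, hk⟩ := unif E (θ := 1 / 2) (by norm_num)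
  obtain ⟨L, hLE, hLid, hLk⟩ := exists_left E (hk k le_rfl)
  obtain ⟨δ₁, hδ₁, hδ₁d⟩ := exists_min_pos d hd k
  set θ : ℝ := min (δ₁ / 4) (min (ε / 32) (1 / 2)) with hθ
  have hθ0 : 0 < θ := by positivity
  have hθ1 : θ ≤ δ₁ / 4 := min_le_left _ _
  have hθ2 : θ ≤ ε / 32 := (min_le_right _ _).trans (min_le_left _ _)
  have hθ3 : θ ≤ 1 / 2 := (min_le_right _ _).trans (min_le_right _ _)
  obtain ⟨m₀, hm₀⟩ := unif E (θ := θ / (‖L‖ + 1)) (by positivity)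
  set m := max m₀ k with hm
  have hkm : k ≤ m := le_max_right _ _
  have hEm := hm₀ m (le_max_left _ _)
  obtain ⟨δ₂, hδ₂, hδ₂d⟩ := exists_min_pos d hd m
  set δ : ℝ := min (δ₁ / 4) (min δ₂ 1) with hδ
  have hδ0 : 0 < δ := by positivity
  have hδ1 : δ ≤ δ₁ / 4 := min_le_left _ _
  have hδ2 : δ ≤ δ₂ := (min_le_right _ _).trans (min_le_left _ _)
  -- the perturbation
  set A : XX 𝕜 →L[𝕜] XX 𝕜 := ContinuousLinearMap.id 𝕜 _ +
    (ContinuousLinearMap.id 𝕜 _ - PP m).comp L with hA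
  have hAx : ∀ x, A x = x + (L x - PP m (L x)) := fun x => rfl
  have hAn : ∀ x, ‖A x - x‖ ≤ θ * ‖x‖ := by
    intro x
    rw [hAx, add_sub_cancel_left]
    refine (hEm (L x) (hLE x)).trans ?_
    have h1 := L.le_opNorm x
    have h2 : θ / (‖L‖ + 1) * ‖L x‖ ≤ θ / (‖L‖ + 1) * (‖L‖ * ‖x‖) := by gcongr
    refine h2.trans ?_
    have h3 : θ / (‖L‖ + 1) * (‖L‖ * ‖x‖) = θ * ‖x‖ * (‖L‖ / (‖L‖ + 1)) := by ring
    rw [h3]
    have h4 : ‖L‖ / (‖L‖ + 1) ≤ 1 := by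
      rw [div_le_one (by positivity)]
      linarith
    have h5 : 0 ≤ θ * ‖x‖ := by positivity
    nlinarith
  have hAinj : ∀ j, k ≤ j → ∀ u : Hx 𝕜 j, A (inj j u) = inj j u := by
    intro j hj u
    have h1 : L (inj j u) = L 0 := hLk _ _ (fun i hi => by
      rw [ev_inj_ne (by omega), map_zero])
    rw [hAx, h1, map_zero, map_zero, sub_zero, add_zero]
  set F : Submodule 𝕜 (XX 𝕜) := LinearMap.range (A.comp (PP m)).toLinearMap with hF
  have hEF : E ≤ F := by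
    intro e he
    refine ⟨e, ?_⟩
    show A (PP m e) = e
    have h1 : L (PP m e) = L e := hLk _ _ (fun i hi => by
      rw [ev_PP, if_pos (by omega)])
    rw [hAx, h1, hLid e he]
    abel
  have hFfin : FiniteDimensional 𝕜 F := by
    let Ψ : (∀ j : Fin m, Hx 𝕜 j) →ₗ[𝕜] XX 𝕜 :=
      ∑ j : Fin m, A.toLinearMap ∘ₗ (inj (j : ℕ)).toLinearMap ∘ₗ LinearMap.proj j
    have h1 : F ≤ LinearMap.range Ψ := by
      rintro _ ⟨x, rfl⟩
      refine ⟨fun j => ev (j : ℕ) x, ?_⟩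
      show Ψ (fun j => ev (j : ℕ) x) = A (PP m x)
      rw [PP_apply, map_sum, Finset.sum_range]
      simp [Ψ]
    exact Submodule.finiteDimensional_of_le h1
  have hmem : ∀ j, j < m → ∀ u : Hx 𝕜 j, A (inj j u) ∈ F := by
    intro j hj u
    refine ⟨inj j u, ?_⟩
    show A (PP m (inj j u)) = A (inj j u)
    rw [PP_inj hj]
  refine ⟨F, hEF, hFfin, δ, hδ0, transitive_of_rigid hε (fun ι hι => ?_)⟩
  have hιabs := Emb.abs_le hδ0 hι
  -- the isometries of the pieces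
  have hg : ∀ j : ℕ, ∃ g : Hx 𝕜 j ≃ₗᵢ[𝕜] Hx 𝕜 j, ∀ hj : j < m, ∀ u,
      ‖ι ⟨A (inj j u), hmem j hj u⟩ - inj j (g u)‖ ≤ (ε / 32 * (1 / 2) ^ j) * ‖u‖ := by
    intro j
    by_cases hj : j < m
    · set T : Hx 𝕜 j →L[𝕜] XX 𝕜 := ι.comp ((A.comp (inj j)).codRestrict F (hmem j hj)) with hT
      have hTu : ∀ u, T u = ι ⟨A (inj j u), hmem j hj u⟩ := fun u => rfl
      obtain ⟨g, hg⟩ := hpiece j T (fun u => by
        rw [hTu]
        have h1 := hιabs ⟨A (inj j u), hmem j hj u⟩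
        have h2 : ‖(⟨A (inj j u), hmem j hj u⟩ : F)‖ = ‖A (inj j u)‖ := rfl
        rw [h2] at h1
        rcases lt_or_ge j k with hjk | hjk
        · have h3 := hAn (inj j u)
          rw [norm_inj] at h3
          have h4 : |‖A (inj j u)‖ - ‖u‖| ≤ θ * ‖u‖ := by
            refine le_trans ?_ h3
            rw [← norm_inj j u]
            exact abs_norm_sub_norm_le _ _
          have h5 : ‖A (inj j u)‖ ≤ 2 * ‖u‖ := by
            rw [_root_.abs_le] at h4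
            have : θ * ‖u‖ ≤ 1 / 2 * ‖u‖ := by gcongr
            linarith [norm_nonneg u]
          have h6 : |‖ι ⟨A (inj j u), hmem j hj u⟩‖ - ‖u‖| ≤
              |‖ι ⟨A (inj j u), hmem j hj u⟩‖ - ‖A (inj j u)‖| + |‖A (inj j u)‖ - ‖u‖| :=
            abs_sub_le _ _ _
          have h7 : δ * ‖A (inj j u)‖ ≤ δ * (2 * ‖u‖) := by gcongr
          have h8 : (δ * 2 + θ) * ‖u‖ ≤ d j * ‖u‖ := by
            have := hδ₁d j hjk
            gcongr
            linarith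
          linarith
        · have h11 : ‖A (inj j u)‖ = ‖u‖ := by rw [hAinj j hjk, norm_inj]
          rw [h11] at h1
          have h9 : δ * ‖u‖ ≤ d j * ‖u‖ := by
            have := hδ₂d j hj
            gcongr
            linarith
          exact h1.trans h9)
      exact ⟨g, fun _ u => hg u⟩
    · exact ⟨LinearIsometryEquiv.refl 𝕜 _, fun hj' => absurd hj' hj⟩
  choose g hg using hg
  refine ⟨diagE g, ?_⟩
  rintro ⟨_, x, rfl⟩
  set y := PP m x with hy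
  have hf : (A.comp (PP m)).toLinearMap x = A y := rfl
  have hyn : ∀ j : Fin m, ‖ev (j : ℕ) x‖ ≤ ‖y‖ := by
    intro j
    have h1 : ev (j : ℕ) x = ev (j : ℕ) y := by
      rw [hy, ev_PP, if_pos j.2]
    rw [h1]
    exact norm_ev_le _ _
  have hysum : y = ∑ j : Fin m, inj (j : ℕ) (ev (j : ℕ) x) := by
    rw [hy, PP_apply, Finset.sum_range]
  have hfsum : (⟨(A.comp (PP m)).toLinearMap x, ⟨x, rfl⟩⟩ : F) =
      ∑ j : Fin m, ⟨A (inj (j : ℕ) (ev (j : ℕ) x)), hmem j j.2 _⟩ := by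
    apply Subtype.ext
    rw [AddSubmonoidClass.coe_finsetSum]
    show A y = ∑ j : Fin m, A (inj (j : ℕ) (ev (j : ℕ) x))
    rw [hysum, map_sum]
  have hGy : diagE g y = ∑ j : Fin m, inj (j : ℕ) (g j (ev (j : ℕ) x)) := by
    rw [hysum, map_sum]
    exact Finset.sum_congr rfl fun j _ => diagE_inj g j _
  have h1 : ‖ι ⟨(A.comp (PP m)).toLinearMap x, ⟨x, rfl⟩⟩ - diagE g y‖ ≤ ε / 16 * ‖y‖ := by
    rw [hfsum, map_sum, hGy, ← Finset.sum_sub_distrib]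
    refine (norm_sum_le _ _).trans ?_
    have h2 : ∀ j : Fin m, ‖ι ⟨A (inj (j : ℕ) (ev (j : ℕ) x)), hmem j j.2 _⟩ -
        inj (j : ℕ) (g j (ev (j : ℕ) x))‖ ≤ (ε / 32 * ‖y‖) * (1 / 2) ^ (j : ℕ) := by
      intro j
      refine (hg j j.2 _).trans ?_
      have h3 := hyn j
      calc ε / 32 * (1 / 2) ^ (j : ℕ) * ‖ev (j : ℕ) x‖
          ≤ ε / 32 * (1 / 2) ^ (j : ℕ) * ‖y‖ := by gcongr
        _ = _ := by ring
    refine (Finset.sum_le_sum fun j _ => h2 j).trans ?_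
    rw [← Finset.mul_sum, ← Finset.sum_range (fun j => ((1 : ℝ) / 2) ^ j)]
    have h3 := sum_geometric_two_le m
    have h4 : 0 ≤ ε / 32 * ‖y‖ := by positivity
    nlinarith
  have h2 : ‖diagE g y - diagE g (A y)‖ ≤ ε / 32 * ‖y‖ := by
    rw [← map_sub, (diagE g).norm_map, norm_sub_rev]
    refine (hAn y).trans ?_
    gcongr
  have h3 : ‖y‖ ≤ 2 * ‖A y‖ := by
    have h4 := hAn y
    have h5 : ‖y‖ ≤ ‖A y‖ + ‖A y - y‖ := by
      have := norm_sub_norm_le y (A y)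
      rw [norm_sub_rev] at this
      linarith
    have h6 : θ * ‖y‖ ≤ 1 / 2 * ‖y‖ := by gcongr
    linarith
  have h4 : ‖ι ⟨(A.comp (PP m)).toLinearMap x, ⟨x, rfl⟩⟩ - diagE g (A y)‖ ≤
      ε / 16 * ‖y‖ + ε / 32 * ‖y‖ := by
    have h5 := norm_sub_le_norm_sub_add_norm_sub
      (ι ⟨(A.comp (PP m)).toLinearMap x, ⟨x, rfl⟩⟩) (diagE g y) (diagE g (A y))
    linarith
  have h5 : ε / 16 * ‖y‖ + ε / 32 * ‖y‖ ≤ ε / 3 * ‖A y‖ := by
    have h6 : ε / 16 * ‖y‖ + ε / 32 * ‖y‖ = 3 * ε / 32 * ‖y‖ := by ring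
    rw [h6]
    calc 3 * ε / 32 * ‖y‖ ≤ 3 * ε / 32 * (2 * ‖A y‖) := by gcongr
      _ ≤ ε / 3 * ‖A y‖ := by
        have : 0 ≤ ε * ‖A y‖ := by positivity
        nlinarith
  exact h4.trans h5

end Pool.Agent.MP_65983e_an
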