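import Pool.Agent.Lib.MP_65983e_an.Cof

/-!
# The sum space is not omega-categorical
-/

set_option autoImplicit false
set_option linter.unusedSectionVars false

namespace Pool.Agent.MP_65983e_an

open Filter Topology

variable {𝕜 : Type*} [RCLike 𝕜]

/-- Cofinally Fraisse spaces are guarded Fraisse. -/
theorem CofinallyFraisse.guarded {X : Type*} [NormedAddCommGroup X] [NormedSpace 𝕜 X]
    (h : CofinallyFraisse 𝕜 X) : GuardedFraisse 𝕜 X := by
  intro E hE ε hε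
  obtain ⟨F, hEF, hF, δ, hδ, hT⟩ := h ε hε E hE
  refine ⟨δ, hδ, F, hEF, hF, ?_⟩
  rintro j ⟨ι, hι, hj⟩ j' ⟨ι', hι', hj'⟩
  obtain ⟨T, hT⟩ := hT ι hι ι' hι'
  refine ⟨T, lt_of_le_of_lt ?_ hT⟩
  refine ContinuousLinearMap.opNorm_le_bound _ (norm_nonneg _) (fun x => ?_)
  have h1 := (ι' - (T.toContinuousLinearEquiv : X →L[𝕜] X).comp ι).le_opNorm ⟨x, hEF x.2⟩
  have h2 : (j' - (T.toContinuousLinearEquiv : X →L[𝕜] X).comp j) x =
      (ι' - (T.toContinuousLinearEquiv : X →L[𝕜] X).comp ι) ⟨x, hEF x.2⟩ := by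
    show j' x - T (j x) = ι' ⟨x, hEF x.2⟩ - T (ι ⟨x, hEF x.2⟩)
    rw [hj, hj']
  rw [h2]
  exact h1

/-- The unit vectors of the summands. -/
noncomputable def zz (j : ℕ) : XX 𝕜 := inj j Hx.e₁

lemma norm_zz (j : ℕ) : ‖(zz j : XX 𝕜)‖ = 1 := by
  unfold zz
  rw [norm_inj, Hx.norm_e₁]

/-- Isometries keep these vectors apart. -/
lemma far {i j : ℕ} (hij : i ≠ j) (T : XX 𝕜 ≃ₗᵢ[𝕜] XX 𝕜) :
    1 / 2 ≤ ‖T (zz i) - zz j‖ := by
  obtain ⟨δ, hδ, h⟩ := piece (𝕜 := 𝕜) i (ε := 1 / 2) (by norm_num)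
  obtain ⟨g, hg⟩ := h ((T.toContinuousLinearEquiv : XX 𝕜 →L[𝕜] XX 𝕜).comp (inj i)) (fun u => by
    have h1 : ((T.toContinuousLinearEquiv : XX 𝕜 →L[𝕜] XX 𝕜).comp (inj i)) u = T (inj i u) := rfl
    rw [h1, T.norm_map, norm_inj, sub_self, abs_zero]
    positivity)
  have h1 := hg Hx.e₁
  have h2 : ((T.toContinuousLinearEquiv : XX 𝕜 →L[𝕜] XX 𝕜).comp (inj i)) Hx.e₁ = T (zz i) := rfl
  rw [h2, Hx.norm_e₁, mul_one] at h1
  have h3 : 1 ≤ ‖inj i (g Hx.e₁) - zz j‖ := by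
    have h4 := norm_ev_le j (inj i (g Hx.e₁) - zz j)
    rw [map_sub, ev_inj_ne hij.symm, zero_sub, norm_neg, zz, ev_inj_self, Hx.norm_e₁] at h4
    exact h4
  have h4 : ‖inj i (g Hx.e₁) - zz j‖ ≤ ‖T (zz i) - inj i (g Hx.e₁)‖ + ‖T (zz i) - zz j‖ := by
    have := norm_sub_le_norm_sub_add_norm_sub (inj i (g Hx.e₁)) (T (zz i)) (zz j)
    rwa [norm_sub_rev (inj i (g Hx.e₁)) (T (zz i))] at this
  linarith

/-- The corresponding points of the unit ball. -/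
noncomputable def yy (j : ℕ) : Fin 1 → Metric.closedBall (0 : XX 𝕜) 1 :=
  fun _ => ⟨zz j, by rw [mem_closedBall_zero_iff, norm_zz]⟩

lemma far' {i j : ℕ} (hij : i ≠ j) (T : XX 𝕜 ≃ₗᵢ[𝕜] XX 𝕜) :
    1 / 2 ≤ dist (act T (yy i)) (yy j) := by
  have h1 : dist (act T (yy i) 0) (yy j 0) ≤ dist (act T (yy i)) (yy j) := dist_le_pi_dist _ _ 0
  refine le_trans ?_ h1
  have h2 : dist (act T (yy i) 0) (yy j 0) = dist (T (zz i)) (zz j) := rfl
  rw [h2, dist_eq_norm]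
  exact far hij T

/-- The orbit closures of these points. -/
noncomputable def oc (j : ℕ) : OC 𝕜 (XX 𝕜) 1 := ⟨orbitClosure 𝕜 (yy j), yy j, rfl⟩

lemma far_rho {i j : ℕ} (hij : i ≠ j) : 1 / 2 ≤ dist (oc i : OC 𝕜 (XX 𝕜) 1) (oc j) := by
  show 1 / 2 ≤ rho (oc i : OC 𝕜 (XX 𝕜) 1) (oc j)
  unfold rho
  refine le_csInf (rho_nonempty _ _) ?_
  rintro r ⟨z, hz, w, hw, rfl⟩
  refine le_of_forall_pos_le_add (fun ε hε => ?_)
  obtain ⟨S, hS⟩ := mem_orbitClosure_iff.mp hz (ε / 2) (by positivity)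
  obtain ⟨R, hR⟩ := mem_orbitClosure_iff.mp hw (ε / 2) (by positivity)
  have h1 := far' hij (S.trans R.symm)
  have h2 : dist (act (S.trans R.symm) (yy i)) (yy j) = dist (act S (yy i)) (act R (yy j)) := by
    rw [← dist_act R]
    congr 1
    rw [act_act]
    congr 1
    ext x
    simp
  rw [h2] at h1
  have h3 := dist_triangle4 (act S (yy i)) z w (act R (yy j))
  rw [dist_comm] at hS
  linarith

theorem not_omega : ¬ OmegaCategorical 𝕜 (XX 𝕜) := by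
  intro h
  have := h 1
  obtain ⟨A, φ, hφ, hlim⟩ := CompactSpace.tendsto_subseq (fun j : ℕ => (oc j : OC 𝕜 (XX 𝕜) 1))
  have hc := hlim.cauchySeq
  rw [Metric.cauchySeq_iff] at hc
  obtain ⟨N, hN⟩ := hc (1 / 2) (by norm_num)
  have h1 := hN N le_rfl (N + 1) (Nat.le_succ N)
  have h2 := far_rho (𝕜 := 𝕜) (i := φ N) (j := φ (N + 1)) (hφ (Nat.lt_succ_self N)).ne
  have h3 : dist (oc (φ N) : OC 𝕜 (XX 𝕜) 1) (oc (φ (N + 1))) < 1 / 2 := h1
  linarith

theorem not_finiteDimensional : ¬ FiniteDimensional 𝕜 (XX 𝕜) := by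
  intro h
  have : ProperSpace (XX 𝕜) := FiniteDimensional.proper 𝕜 _
  obtain ⟨A, -, φ, hφ, hlim⟩ := (isCompact_closedBall (0 : XX 𝕜) 1).tendsto_subseq
    (x := fun j => zz j) (fun j => by rw [mem_closedBall_zero_iff, norm_zz])
  have hc := hlim.cauchySeq
  rw [Metric.cauchySeq_iff] at hc
  obtain ⟨N, hN⟩ := hc (1 / 2) (by norm_num)
  have h1 := hN N le_rfl (N + 1) (Nat.le_succ N)
  have h2 := far (𝕜 := 𝕜) (i := φ N) (j := φ (N + 1)) (hφ (Nat.lt_succ_self N)).ne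
    (LinearIsometryEquiv.refl 𝕜 _)
  simp only [Function.comp_apply, LinearIsometryEquiv.coe_refl, id] at h1 h2
  rw [dist_eq_norm] at h1
  linarith

theorem separable : TopologicalSpace.SeparableSpace (XX 𝕜) := by
  set S : Set (XX 𝕜) := Set.range (fun j : ℕ => inj j Hx.e₁) ∪ Set.range (fun j : ℕ => inj j Hx.e₂)
    with hS
  have hc : S.Countable := (Set.countable_range _).union (Set.countable_range _)
  have h1 : TopologicalSpace.IsSeparable (closure (Submodule.span 𝕜 S : Set (XX 𝕜))) :=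
    (hc.isSeparable.span (R := 𝕜)).closure
  have h2 : closure (Submodule.span 𝕜 S : Set (XX 𝕜)) = Set.univ := by
    rw [Set.eq_univ_iff_forall]
    intro x
    refine mem_closure_of_tendsto (PP_tendsto x) (Eventually.of_forall fun m => ?_)
    rw [PP_apply]
    refine Submodule.sum_mem _ (fun j _ => ?_)
    have h3 : ev j x = Hx.fst (ev j x) • Hx.e₁ + Hx.snd (ev j x) • Hx.e₂ := by
      refine Hx.ext' ?_ ?_ <;> simp [Hx.e₁, Hx.e₂]
    rw [h3, map_add, map_smul, map_smul]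
    refine Submodule.add_mem _ (Submodule.smul_mem _ _ (Submodule.subset_span ?_))
      (Submodule.smul_mem _ _ (Submodule.subset_span ?_))
    · exact Or.inl ⟨j, rfl⟩
    · exact Or.inr ⟨j, rfl⟩
  rw [h2] at h1
  exact TopologicalSpace.isSeparable_univ_iff.mp h1

end Pool.Agent.MP_65983e_an
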