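import Mathlib

/-!
# The two-dimensional pieces
-/

set_option autoImplicit false
set_option linter.unusedSectionVars false

namespace Pool.Agent.MP_65983e_an

open Filter Topology

/-- The parameters, strictly decreasing from `39/20` to `7/4`. -/
noncomputable def sp (n : ℕ) : ℝ := 7 / 4 + 1 / ((n : ℝ) + 5)

lemma sp_gt (n : ℕ) : 7 / 4 < sp n := by
  unfold sp
  have : (0 : ℝ) < 1 / ((n : ℝ) + 5) := by positivity
  linarith

lemma sp_lt (n : ℕ) : sp n < 2 := by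
  unfold sp
  have h : 1 / ((n : ℝ) + 5) ≤ 1 / 5 := by
    apply one_div_le_one_div_of_le (by norm_num)
    have : (0 : ℝ) ≤ n := Nat.cast_nonneg n
    linarith
  linarith

lemma sp_pos (n : ℕ) : 0 < sp n := by
  have := sp_gt n
  linarith

/-- The gap. -/
noncomputable def gp (n : ℕ) : ℝ := sp n - sp (n + 1)

lemma gp_eq (n : ℕ) : gp n = 1 / (((n : ℝ) + 5) * ((n : ℝ) + 6)) := by
  unfold gp sp
  have h : (0 : ℝ) < (n : ℝ) + 5 := by positivity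
  have h' : (0 : ℝ) < (n : ℝ) + 6 := by positivity
  push_cast
  field_simp
  ring

lemma gp_pos (n : ℕ) : 0 < gp n := by
  rw [gp_eq]
  positivity

lemma sp_anti : StrictAnti sp := strictAnti_nat_of_succ_lt fun n => by
  have := gp_pos n
  unfold gp at this
  linarith

lemma gap_right {j n : ℕ} (h : j < n) : gp j ≤ sp j - sp n := by
  have h1 : sp n ≤ sp (j + 1) := sp_anti.antitone h
  unfold gp
  linarith

lemma gap_left {j n : ℕ} (h : n < j) : gp j ≤ sp n - sp j := by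
  obtain ⟨k, rfl⟩ : ∃ k, j = k + 1 := ⟨j - 1, by omega⟩
  have h1 : sp k ≤ sp n := sp_anti.antitone (by omega)
  have h2 : gp (k + 1) ≤ gp k := by
    rw [gp_eq, gp_eq]
    apply one_div_le_one_div_of_le (by positivity)
    push_cast
    have : (0 : ℝ) ≤ k := Nat.cast_nonneg k
    nlinarith
  have h3 : gp k = sp k - sp (k + 1) := rfl
  linarith

lemma real_mixed {s c A B : ℝ} (hs : 7 / 4 < s) (hc : 0 ≤ c)
    (hAB : A ^ 2 + B ^ 2 ≤ 4 * c ^ 2) : s * A + B ≤ (2 * s ^ 2 - 2) * c := by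
  have hs2 : 3 ≤ s ^ 2 := by nlinarith
  have h4 : s ^ 2 + 1 ≤ (s ^ 2 - 1) ^ 2 := by
    have : (s ^ 2 - 1) ^ 2 - (s ^ 2 + 1) = s ^ 2 * (s ^ 2 - 3) := by ring
    have h5 : 0 ≤ s ^ 2 * (s ^ 2 - 3) := mul_nonneg (by positivity) (by linarith)
    linarith
  have h2 : (s * A + B) ^ 2 ≤ (s ^ 2 + 1) * (A ^ 2 + B ^ 2) := by
    have : (s ^ 2 + 1) * (A ^ 2 + B ^ 2) - (s * A + B) ^ 2 = (s * B - A) ^ 2 := by ring
    have h5 := sq_nonneg (s * B - A)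
    linarith
  have h3 : (s ^ 2 + 1) * (A ^ 2 + B ^ 2) ≤ (s ^ 2 + 1) * (4 * c ^ 2) := by gcongr
  have h5 : (s ^ 2 + 1) * (4 * c ^ 2) ≤ (s ^ 2 - 1) ^ 2 * (4 * c ^ 2) := by gcongr
  have h6 : (s * A + B) ^ 2 ≤ ((2 * s ^ 2 - 2) * c) ^ 2 := by
    calc (s * A + B) ^ 2 ≤ (s ^ 2 - 1) ^ 2 * (4 * c ^ 2) := h2.trans (h3.trans h5)
      _ = ((2 * s ^ 2 - 2) * c) ^ 2 := by ring
  have h7 : 0 ≤ (2 * s ^ 2 - 2) * c := mul_nonneg (by linarith) hc
  exact (abs_le_of_sq_le_sq' h6 h7).2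

lemma real_same {c A B : ℝ} (hc : 0 ≤ c) (hAB : A ^ 2 + B ^ 2 ≤ 4 * c ^ 2) : A + B ≤ 3 * c := by
  have h6 : (A + B) ^ 2 ≤ (3 * c) ^ 2 := by nlinarith [sq_nonneg (A - B), sq_nonneg c]
  exact (abs_le_of_sq_le_sq' h6 (by positivity)).2

lemma real_key {s c p q r t a b : ℝ} (hs : 7 / 4 < s) (hc : 0 ≤ c) (hp0 : 0 ≤ p) (hq0 : 0 ≤ q)
    (hr0 : 0 ≤ r) (ht0 : 0 ≤ t) (P1 : p ^ 2 + q ^ 2 ≤ 4 * c ^ 2) (P2 : r ^ 2 + t ^ 2 ≤ 4 * c ^ 2)
    (hp : p ≤ 2 * c) (hq : q ≤ 2 * c) (hr : r ≤ 2 * c) (ht : t ≤ 2 * c)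
    (pt : p + t ≤ 2 * s * c) (rq : r + q ≤ 2 * s * c) (ha : a = p ∨ a = r ∨ p + r = s * a)
    (hb : b = q ∨ b = t ∨ q + t = s * b) : a + b ≤ 2 * s * c := by
  have hs2 : 3 ≤ s ^ 2 := by nlinarith
  have hs0 : 0 < s := by linarith
  have h3c : 3 * c ≤ 2 * s * c := by nlinarith
  have h6c : 6 * c ≤ 2 * s ^ 2 * c := by nlinarith
  have S1 := real_same hc P1
  have S2 := real_same hc P2
  have M1 := real_mixed hs hc P1
  have M2 := real_mixed hs hc P2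
  have M3 := real_mixed (A := q) (B := p) hs hc (by linarith)
  have M4 := real_mixed (A := t) (B := r) hs hc (by linarith)
  have fin : s * (a + b) ≤ s * (2 * s * c) → a + b ≤ 2 * s * c :=
    fun h => le_of_mul_le_mul_left h hs0
  rcases ha with rfl | rfl | ha <;> rcases hb with rfl | rfl | hb
  · linarith
  · linarith
  · apply fin
    rw [mul_add, ← hb]
    nlinarith
  · linarith
  · linarith
  · apply fin
    rw [mul_add, ← hb]
    nlinarith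
  · apply fin
    rw [mul_add, ← ha]
    nlinarith
  · apply fin
    rw [mul_add, ← ha]
    nlinarith
  · apply fin
    rw [mul_add, ← ha, ← hb]
    nlinarith

variable (𝕜 : Type*) [RCLike 𝕜]

/-- The plane with the norm `max (|x|, |y|, (|x| + |y|) / s)`. -/
def Hx (_n : ℕ) : Type _ := 𝕜 × 𝕜

namespace Hx

variable {𝕜} {n : ℕ}

instance : AddCommGroup (Hx 𝕜 n) := inferInstanceAs (AddCommGroup (𝕜 × 𝕜))
instance : Module 𝕜 (Hx 𝕜 n) := inferInstanceAs (Module 𝕜 (𝕜 × 𝕜))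
instance : FiniteDimensional 𝕜 (Hx 𝕜 n) := inferInstanceAs (FiniteDimensional 𝕜 (𝕜 × 𝕜))

/-- First coordinate. -/
def fst (x : Hx 𝕜 n) : 𝕜 := Prod.fst x

/-- Second coordinate. -/
def snd (x : Hx 𝕜 n) : 𝕜 := Prod.snd x

/-- Constructor. -/
def mk (a b : 𝕜) : Hx 𝕜 n := (a, b)

@[simp] lemma fst_mk (a b : 𝕜) : fst (mk a b : Hx 𝕜 n) = a := rfl
@[simp] lemma snd_mk (a b : 𝕜) : snd (mk a b : Hx 𝕜 n) = b := rfl
@[simp] lemma fst_add (x y : Hx 𝕜 n) : fst (x + y) = fst x + fst y := rfl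
@[simp] lemma snd_add (x y : Hx 𝕜 n) : snd (x + y) = snd x + snd y := rfl
@[simp] lemma fst_sub (x y : Hx 𝕜 n) : fst (x - y) = fst x - fst y := rfl
@[simp] lemma snd_sub (x y : Hx 𝕜 n) : snd (x - y) = snd x - snd y := rfl
@[simp] lemma fst_neg (x : Hx 𝕜 n) : fst (-x) = -fst x := rfl
@[simp] lemma snd_neg (x : Hx 𝕜 n) : snd (-x) = -snd x := rfl
@[simp] lemma fst_zero : fst (0 : Hx 𝕜 n) = 0 := rfl
@[simp] lemma snd_zero : snd (0 : Hx 𝕜 n) = 0 := rfl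
@[simp] lemma fst_smul (c : 𝕜) (x : Hx 𝕜 n) : fst (c • x) = c * fst x := rfl
@[simp] lemma snd_smul (c : 𝕜) (x : Hx 𝕜 n) : snd (c • x) = c * snd x := rfl

lemma ext' {x y : Hx 𝕜 n} (h1 : fst x = fst y) (h2 : snd x = snd y) : x = y := Prod.ext h1 h2

/-- The norm. -/
noncomputable def nm (x : Hx 𝕜 n) : ℝ :=
  max (max ‖fst x‖ ‖snd x‖) ((‖fst x‖ + ‖snd x‖) / sp n)

lemma fst_le_nm (x : Hx 𝕜 n) : ‖fst x‖ ≤ nm x := (le_max_left _ _).trans (le_max_left _ _)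
lemma snd_le_nm (x : Hx 𝕜 n) : ‖snd x‖ ≤ nm x := (le_max_right _ _).trans (le_max_left _ _)
lemma add_le_nm (x : Hx 𝕜 n) : (‖fst x‖ + ‖snd x‖) / sp n ≤ nm x := le_max_right _ _

lemma nm_le {x : Hx 𝕜 n} {c : ℝ} (h1 : ‖fst x‖ ≤ c) (h2 : ‖snd x‖ ≤ c)
    (h3 : ‖fst x‖ + ‖snd x‖ ≤ sp n * c) : nm x ≤ c := by
  refine max_le (max_le h1 h2) ?_
  rw [div_le_iff₀ (sp_pos n), mul_comm]
  exact h3

lemma add_le_sp_mul (x : Hx 𝕜 n) : ‖fst x‖ + ‖snd x‖ ≤ sp n * nm x := by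
  have := add_le_nm x
  rw [div_le_iff₀ (sp_pos n)] at this
  linarith

noncomputable instance : NormedAddCommGroup (Hx 𝕜 n) :=
  AddGroupNorm.toNormedAddCommGroup
    { toFun := nm
      map_zero' := by simp [nm]
      add_le' := fun x y => by
        refine nm_le ?_ ?_ ?_
        · exact (norm_add_le _ _).trans (add_le_add (fst_le_nm x) (fst_le_nm y))
        · exact (norm_add_le _ _).trans (add_le_add (snd_le_nm x) (snd_le_nm y))
        · have h1 := norm_add_le (fst x) (fst y)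
          have h2 := norm_add_le (snd x) (snd y)
          have h3 := add_le_sp_mul x
          have h4 := add_le_sp_mul y
          rw [fst_add, snd_add, mul_add]
          linarith
      neg' := fun x => by simp [nm]
      eq_zero_of_map_eq_zero' := fun x hx => by
        have h1 := fst_le_nm x
        have h2 := snd_le_nm x
        rw [show nm x = 0 from hx] at h1 h2
        exact ext' (norm_le_zero_iff.mp h1) (norm_le_zero_iff.mp h2) }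

lemma norm_def (x : Hx 𝕜 n) : ‖x‖ = nm x := rfl

lemma fst_le (x : Hx 𝕜 n) : ‖fst x‖ ≤ ‖x‖ := fst_le_nm x
lemma snd_le (x : Hx 𝕜 n) : ‖snd x‖ ≤ ‖x‖ := snd_le_nm x
lemma add_le (x : Hx 𝕜 n) : ‖fst x‖ + ‖snd x‖ ≤ sp n * ‖x‖ := add_le_sp_mul x

lemma norm_le {x : Hx 𝕜 n} {c : ℝ} (h1 : ‖fst x‖ ≤ c) (h2 : ‖snd x‖ ≤ c)
    (h3 : ‖fst x‖ + ‖snd x‖ ≤ sp n * c) : ‖x‖ ≤ c := nm_le h1 h2 h3

noncomputable instance : NormedSpace 𝕜 (Hx 𝕜 n) where
  norm_smul_le c x := by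
    refine norm_le ?_ ?_ ?_
    · rw [fst_smul, norm_mul]
      exact mul_le_mul_of_nonneg_left (fst_le x) (norm_nonneg _)
    · rw [snd_smul, norm_mul]
      exact mul_le_mul_of_nonneg_left (snd_le x) (norm_nonneg _)
    · rw [fst_smul, snd_smul, norm_mul, norm_mul, ← mul_add]
      have := mul_le_mul_of_nonneg_left (add_le x) (norm_nonneg c)
      linarith

instance : CompleteSpace (Hx 𝕜 n) := FiniteDimensional.complete 𝕜 _

lemma norm_cases (x : Hx 𝕜 n) : ‖x‖ = ‖fst x‖ ∨ ‖x‖ = ‖snd x‖ ∨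
    ‖fst x‖ + ‖snd x‖ = sp n * ‖x‖ := by
  rw [norm_def]
  unfold nm
  rcases le_total ((‖fst x‖ + ‖snd x‖) / sp n) (max ‖fst x‖ ‖snd x‖) with h | h
  · rw [max_eq_left h]
    rcases le_total ‖fst x‖ ‖snd x‖ with h' | h'
    · rw [max_eq_right h']
      exact Or.inr (Or.inl rfl)
    · rw [max_eq_left h']
      exact Or.inl rfl
  · rw [max_eq_right h]
    right; right
    have := (sp_pos n).ne'
    field_simp

/-- First basis vector. -/
def e₁ : Hx 𝕜 n := mk 1 0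

/-- Second basis vector. -/
def e₂ : Hx 𝕜 n := mk 0 1

lemma norm_mk_one {b : 𝕜} (hb : ‖b‖ ≤ sp n - 1) : ‖(mk 1 b : Hx 𝕜 n)‖ = 1 := by
  have h1 := sp_lt n
  apply le_antisymm
  · refine norm_le ?_ ?_ ?_ <;> simp <;> linarith
  · have := fst_le (mk 1 b : Hx 𝕜 n)
    simpa using this

lemma norm_mk_one' {b : 𝕜} (hb : ‖b‖ ≤ sp n - 1) : ‖(mk b 1 : Hx 𝕜 n)‖ = 1 := by
  have h1 := sp_lt n
  apply le_antisymm
  · refine norm_le ?_ ?_ ?_ <;> simp <;> linarith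
  · have := snd_le (mk b 1 : Hx 𝕜 n)
    simpa using this

lemma norm_e₁ : ‖(e₁ : Hx 𝕜 n)‖ = 1 := norm_mk_one (by
  have := sp_gt n
  simp; linarith)

lemma norm_e₂ : ‖(e₂ : Hx 𝕜 n)‖ = 1 := norm_mk_one' (by
  have := sp_gt n
  simp; linarith)

/-- The vector `(1, s - 1)`. -/
noncomputable def vp : Hx 𝕜 n := mk 1 ((sp n - 1 : ℝ) : 𝕜)

/-- The vector `(1, 1 - s)`. -/
noncomputable def vm : Hx 𝕜 n := mk 1 (-((sp n - 1 : ℝ) : 𝕜))

lemma norm_ofReal_sp : ‖((sp n - 1 : ℝ) : 𝕜)‖ = sp n - 1 := by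
  rw [RCLike.norm_ofReal, abs_of_nonneg]
  have := sp_gt n
  linarith

lemma norm_vp : ‖(vp : Hx 𝕜 n)‖ = 1 := norm_mk_one norm_ofReal_sp.le

lemma norm_vm : ‖(vm : Hx 𝕜 n)‖ = 1 := norm_mk_one (by rw [norm_neg]; exact norm_ofReal_sp.le)

lemma vp_add_vm : (vp + vm : Hx 𝕜 n) = (2 : 𝕜) • e₁ := by
  refine ext' ?_ ?_
  · simp [vp, vm, e₁]
    norm_num
  · simp [vp, vm, e₁]

lemma vp_sub_vm : (vp - vm : Hx 𝕜 n) = ((2 * (sp n - 1) : ℝ) : 𝕜) • e₂ := by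
  refine ext' ?_ ?_
  · simp [vp, vm, e₂]
  · simp only [vp, vm, e₂, snd_sub, snd_mk, snd_smul]
    push_cast
    ring

/-- The key inequality. -/
lemma key_ineq (x y : Hx 𝕜 n) {c : ℝ} (hx : ‖x‖ ≤ c) (hy : ‖y‖ ≤ c) :
    ‖x + y‖ + ‖x - y‖ ≤ 2 * sp n * c := by
  have hc : 0 ≤ c := (norm_nonneg x).trans hx
  have hspos := sp_pos n
  have hpar : ∀ a b : 𝕜, ‖a‖ ≤ c → ‖b‖ ≤ c → ‖a + b‖ ^ 2 + ‖a - b‖ ^ 2 ≤ 4 * c ^ 2 := by
    intro a b ha hb
    have h := parallelogram_law_with_norm ℝ a b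
    have h1 : ‖a‖ * ‖a‖ ≤ c * c := mul_self_le_mul_self (norm_nonneg _) ha
    have h2 : ‖b‖ * ‖b‖ ≤ c * c := mul_self_le_mul_self (norm_nonneg _) hb
    nlinarith
  have x1 := (fst_le x).trans hx
  have x2 := (snd_le x).trans hx
  have y1 := (fst_le y).trans hy
  have y2 := (snd_le y).trans hy
  have x3 : ‖fst x‖ + ‖snd x‖ ≤ sp n * c := (add_le x).trans (by gcongr)
  have y3 : ‖fst y‖ + ‖snd y‖ ≤ sp n * c := (add_le y).trans (by gcongr)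
  have P1 := hpar _ _ x1 y1
  have P2 := hpar _ _ x2 y2
  have p' : ‖fst x + fst y‖ ≤ ‖fst x‖ + ‖fst y‖ := norm_add_le _ _
  have q' : ‖fst x - fst y‖ ≤ ‖fst x‖ + ‖fst y‖ := norm_sub_le _ _
  have r' : ‖snd x + snd y‖ ≤ ‖snd x‖ + ‖snd y‖ := norm_add_le _ _
  have t' : ‖snd x - snd y‖ ≤ ‖snd x‖ + ‖snd y‖ := norm_sub_le _ _
  exact real_key (sp_gt n) hc (norm_nonneg _) (norm_nonneg _) (norm_nonneg _) (norm_nonneg _)
    P1 P2 (by linarith) (by linarith) (by linarith) (by linarith) (by linarith) (by linarith)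
    (norm_cases (x + y)) (norm_cases (x - y))

end Hx

end Pool.Agent.MP_65983e_an
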