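import Pool.Agent.Lib.MP_65983e_an.Space

/-!
# Rigidity of the pieces
-/

set_option autoImplicit false
set_option linter.unusedSectionVars false

namespace Pool.Agent.MP_65983e_an

open Filter Topology

variable {𝕜 : Type*} [RCLike 𝕜]

/-- Almost isometries of a finite-dimensional space are close to isometries. -/
lemma near_isometry (V : Type*) [NormedAddCommGroup V] [NormedSpace 𝕜 V] [FiniteDimensional 𝕜 V]
    {ε : ℝ} (hε : 0 < ε) : ∃ δ : ℝ, 0 < δ ∧ ∀ T : V →L[𝕜] V,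
      (∀ u, |‖T u‖ - ‖u‖| ≤ δ * ‖u‖) → ∃ g : V ≃ₗᵢ[𝕜] V, ∀ u, ‖T u - g u‖ ≤ ε * ‖u‖ := by
  by_contra hcon
  push Not at hcon
  have h1 : ∀ n : ℕ, ∃ T : V →L[𝕜] V, (∀ u, |‖T u‖ - ‖u‖| ≤ 1 / ((n : ℝ) + 1) * ‖u‖) ∧
      ∀ g : V ≃ₗᵢ[𝕜] V, ∃ u, ε * ‖u‖ < ‖T u - g u‖ := fun n =>
    hcon (1 / ((n : ℝ) + 1)) (by positivity)
  choose T hT hTg using h1
  have hbd : ∀ n, T n ∈ Metric.closedBall (0 : V →L[𝕜] V) 2 := by
    intro n
    rw [mem_closedBall_zero_iff]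
    refine ContinuousLinearMap.opNorm_le_bound _ (by norm_num) (fun u => ?_)
    have h2 := hT n u
    rw [abs_le] at h2
    have h3 : 1 / ((n : ℝ) + 1) ≤ 1 := by
      rw [div_le_one (by positivity)]
      have : (0 : ℝ) ≤ n := Nat.cast_nonneg n
      linarith
    have h4 : 1 / ((n : ℝ) + 1) * ‖u‖ ≤ 1 * ‖u‖ := by gcongr
    linarith
  have : ProperSpace (V →L[𝕜] V) := FiniteDimensional.proper 𝕜 _
  obtain ⟨S, -, φ, hφ, hlim⟩ := (isCompact_closedBall (0 : V →L[𝕜] V) 2).tendsto_subseq hbd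
  have hSn : ∀ u, ‖S u‖ = ‖u‖ := by
    intro u
    have h2 : Tendsto (fun n => ‖T (φ n) u‖) atTop (𝓝 ‖S u‖) := by
      have h3 : Continuous fun R : V →L[𝕜] V => ‖R u‖ :=
        ((ContinuousLinearMap.apply 𝕜 V u).continuous).norm
      exact (h3.tendsto S).comp hlim
    have h3 : Tendsto (fun n => ‖T (φ n) u‖) atTop (𝓝 ‖u‖) := by
      rw [tendsto_iff_norm_sub_tendsto_zero]
      have h4 : Tendsto (fun n : ℕ => 1 / ((φ n : ℝ) + 1) * ‖u‖) atTop (𝓝 (0 * ‖u‖)) :=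
        (tendsto_one_div_add_atTop_nhds_zero_nat.comp hφ.tendsto_atTop).mul_const _
      rw [zero_mul] at h4
      exact squeeze_zero (fun n => norm_nonneg _) (fun n => hT (φ n) u) h4
    exact tendsto_nhds_unique h2 h3
  let L : V →ₗᵢ[𝕜] V := ⟨S.toLinearMap, hSn⟩
  let g : V ≃ₗᵢ[𝕜] V := L.toLinearIsometryEquiv rfl
  have hg : ∀ u, g u = S u := fun u => rfl
  have h2 : ∀ᶠ n in atTop, ‖T (φ n) - S‖ < ε := by
    have := tendsto_iff_norm_sub_tendsto_zero.mp hlim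
    exact this.eventually (gt_mem_nhds hε)
  obtain ⟨n, hn⟩ := h2.exists
  obtain ⟨u, hu⟩ := hTg (φ n) g
  rw [hg] at hu
  have h3 : ‖(T (φ n) - S) u‖ ≤ ‖T (φ n) - S‖ * ‖u‖ := ContinuousLinearMap.le_opNorm _ _
  have h4 : ‖T (φ n) - S‖ * ‖u‖ ≤ ε * ‖u‖ := by gcongr
  rw [ContinuousLinearMap.sub_apply] at h3
  linarith

/-- Rigidity of the pieces. -/
theorem piece (j : ℕ) {ε : ℝ} (hε : 0 < ε) : ∃ δ : ℝ, 0 < δ ∧ ∀ T : Hx 𝕜 j →L[𝕜] XX 𝕜,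
    (∀ u, |‖T u‖ - ‖u‖| ≤ δ * ‖u‖) →
      ∃ g : Hx 𝕜 j ≃ₗᵢ[𝕜] Hx 𝕜 j, ∀ u, ‖T u - inj j (g u)‖ ≤ ε * ‖u‖ := by
  obtain ⟨δ₀, hδ₀, h0⟩ := near_isometry (𝕜 := 𝕜) (Hx 𝕜 j) (ε := ε / 2) (by positivity)
  have hk := kc_pos j
  have h1 : ∃ δ : ℝ, 0 < δ ∧ δ ≤ 1 ∧ kc j * zt δ ≤ ε / 2 ∧ δ + kc j * zt δ ≤ δ₀ := by
    have h2 : Continuous fun δ : ℝ => kc j * zt δ := by
      unfold zt
      fun_prop
    have h3 : Tendsto (fun δ : ℝ => kc j * zt δ) (𝓝[>] 0) (𝓝 0) := by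
      have := (h2.tendsto 0).mono_left (nhdsWithin_le_nhds (s := Set.Ioi 0))
      simpa [zt] using this
    have h4 : Tendsto (fun δ : ℝ => δ + kc j * zt δ) (𝓝[>] 0) (𝓝 0) := by
      have h5 : Tendsto (fun δ : ℝ => δ) (𝓝[>] 0) (𝓝 0) :=
        (tendsto_id (α := ℝ)).mono_left nhdsWithin_le_nhds
      simpa using h5.add h3
    have e1 : ∀ᶠ δ : ℝ in 𝓝[>] 0, kc j * zt δ ≤ ε / 2 :=
      h3.eventually (ge_mem_nhds (by positivity))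
    have e2 : ∀ᶠ δ : ℝ in 𝓝[>] 0, δ + kc j * zt δ ≤ δ₀ := h4.eventually (ge_mem_nhds hδ₀)
    have e3 : ∀ᶠ δ : ℝ in 𝓝[>] 0, δ ≤ 1 :=
      ((tendsto_id (α := ℝ)).mono_left nhdsWithin_le_nhds).eventually (ge_mem_nhds one_pos)
    obtain ⟨δ, h5, h6, h7, h8⟩ :=
      (e1.and (e2.and (e3.and (self_mem_nhdsWithin (s := Set.Ioi (0 : ℝ)))))).exists
    exact ⟨δ, h8, h7, h5, h6⟩
  obtain ⟨δ, hδ, hδ1, hδε, hδδ⟩ := h1
  refine ⟨δ, hδ, fun T hT => ?_⟩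
  have hoff := off_bound' hδ.le hδ1 hT
  obtain ⟨g, hg⟩ := h0 ((ev j).comp T) (fun u => by
    have h2 := hT u
    have h3 : |‖ev j (T u)‖ - ‖T u‖| ≤ ‖off j (T u)‖ := by
      have h4 : ‖ev j (T u)‖ = ‖inj j (ev j (T u))‖ := (norm_inj _ _).symm
      rw [h4, abs_sub_comm]
      exact abs_norm_sub_norm_le _ _
    have h4 := hoff u
    rw [ContinuousLinearMap.comp_apply]
    have h5 : |‖ev j (T u)‖ - ‖u‖| ≤ |‖ev j (T u)‖ - ‖T u‖| + |‖T u‖ - ‖u‖| :=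
      abs_sub_le _ _ _
    have h6 : (δ + kc j * zt δ) * ‖u‖ ≤ δ₀ * ‖u‖ := by gcongr
    linarith)
  refine ⟨g, fun u => ?_⟩
  have h2 : T u - inj j (g u) = off j (T u) + inj j (ev j (T u) - g u) := by
    unfold off
    rw [map_sub]
    abel
  rw [h2]
  refine (norm_add_le _ _).trans ?_
  rw [norm_inj]
  have h3 := hg u
  rw [ContinuousLinearMap.comp_apply] at h3
  have h4 := hoff u
  have h5 : kc j * zt δ * ‖u‖ ≤ ε / 2 * ‖u‖ := by gcongr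
  linarith

/-- The diagonal isometry of a family of isometries. -/
noncomputable def diagLI (g : ∀ n : ℕ, Hx 𝕜 n ≃ₗᵢ[𝕜] Hx 𝕜 n) : XX 𝕜 →ₗᵢ[𝕜] XX 𝕜 where
  toFun x := ⟨fun n => g n (ev n x), (lp.memℓp x).mono' (fun n => by
    rw [(g n).norm_map]
    rfl)⟩
  map_add' x y := by
    refine ext_ev (fun n => ?_)
    rw [map_add]
    show g n (ev n (x + y)) = g n (ev n x) + g n (ev n y)
    rw [map_add, map_add]
  map_smul' c x := by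
    refine ext_ev (fun n => ?_)
    rw [map_smul]
    show g n (ev n (c • x)) = c • g n (ev n x)
    rw [map_smul, map_smul]
  norm_map' x := by
    apply le_antisymm
    · refine lp.norm_mono (by norm_num) (fun n => ?_)
      show ‖g n (ev n x)‖ ≤ ‖ev n x‖
      rw [(g n).norm_map]
    · refine lp.norm_mono (by norm_num) (fun n => ?_)
      show ‖ev n x‖ ≤ ‖g n (ev n x)‖
      rw [(g n).norm_map]

lemma ev_diagLI (g : ∀ n : ℕ, Hx 𝕜 n ≃ₗᵢ[𝕜] Hx 𝕜 n) (x : XX 𝕜) (n : ℕ) :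
    ev n (diagLI g x) = g n (ev n x) := rfl

/-- The diagonal isometry as an equivalence. -/
noncomputable def diagE (g : ∀ n : ℕ, Hx 𝕜 n ≃ₗᵢ[𝕜] Hx 𝕜 n) : XX 𝕜 ≃ₗᵢ[𝕜] XX 𝕜 :=
  LinearIsometryEquiv.ofSurjective (diagLI g) (fun y => ⟨diagLI (fun n => (g n).symm) y, by
    refine ext_ev (fun n => ?_)
    rw [ev_diagLI, ev_diagLI, LinearIsometryEquiv.apply_symm_apply]⟩)

lemma ev_diagE (g : ∀ n : ℕ, Hx 𝕜 n ≃ₗᵢ[𝕜] Hx 𝕜 n) (x : XX 𝕜) (n : ℕ) :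
    ev n (diagE g x) = g n (ev n x) := rfl

lemma diagE_inj (g : ∀ n : ℕ, Hx 𝕜 n ≃ₗᵢ[𝕜] Hx 𝕜 n) (j : ℕ) (u : Hx 𝕜 j) :
    diagE g (inj j u) = inj j (g j u) := by
  refine ext_ev (fun n => ?_)
  rw [ev_diagE]
  by_cases h : n = j
  · subst h
    rw [ev_inj_self, ev_inj_self]
  · rw [ev_inj_ne h, ev_inj_ne h, map_zero]

end Pool.Agent.MP_65983e_an
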