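import Pool.Agent.Lib.MP_65983e_an.Chain

/-!
# The sum space
-/

set_option autoImplicit false
set_option linter.unusedSectionVars false

namespace Pool.Agent.MP_65983e_an

open Filter Topology

variable (𝕜 : Type*) [RCLike 𝕜]

/-- The `ℓ²`-sum of the planes. -/
abbrev XX : Type _ := lp (fun n : ℕ => Hx 𝕜 n) 2

/-- Real square-summable sequences. -/
abbrev L2 : Type := lp (fun _ : ℕ => ℝ) 2

variable {𝕜}

/-- Inclusion of a summand. -/
noncomputable def inj (j : ℕ) : Hx 𝕜 j →L[𝕜] XX 𝕜 :=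
  lp.singleContinuousLinearMap 𝕜 (fun n : ℕ => Hx 𝕜 n) 2 j

/-- Coordinate projection. -/
noncomputable def ev (j : ℕ) : XX 𝕜 →L[𝕜] Hx 𝕜 j :=
  lp.evalCLM 𝕜 (fun n : ℕ => Hx 𝕜 n) 2 j

lemma ev_apply (j : ℕ) (x : XX 𝕜) : ev j x = (x : ∀ n, Hx 𝕜 n) j := rfl

lemma ext_ev {x y : XX 𝕜} (h : ∀ n, ev n x = ev n y) : x = y := lp.ext (funext h)

lemma ev_inj_self (j : ℕ) (u : Hx 𝕜 j) : ev j (inj j u) = u := lp.single_apply_self 2 j u

lemma ev_inj_ne {j n : ℕ} (h : n ≠ j) (u : Hx 𝕜 j) : ev n (inj j u) = 0 :=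
  lp.single_apply_ne 2 j u h

lemma norm_inj (j : ℕ) (u : Hx 𝕜 j) : ‖inj j u‖ = ‖u‖ :=
  lp.norm_single (E := fun n : ℕ => Hx 𝕜 n) (by norm_num) j u

lemma norm_ev_le (j : ℕ) (x : XX 𝕜) : ‖ev j x‖ ≤ ‖x‖ :=
  lp.norm_apply_le_norm (by norm_num) x j

/-- The sequence of norms. -/
noncomputable def nn (x : XX 𝕜) : L2 := lp.toNorm x

lemma nn_apply (x : XX 𝕜) (n : ℕ) : (nn x) n = ‖ev n x‖ := rfl

lemma norm_nn (x : XX 𝕜) : ‖nn x‖ = ‖x‖ := lp.norm_toNorm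

/-- The sequence of absolute values. -/
noncomputable def ab (x : L2) : L2 := lp.toNorm x

lemma ab_apply (x : L2) (n : ℕ) : (ab x) n = |x n| := rfl

lemma norm_ab (x : L2) : ‖ab x‖ = ‖x‖ := lp.norm_toNorm

lemma norm_le_L2 {x : XX 𝕜} {g : L2} (h : ∀ n, ‖ev n x‖ ≤ g n) : ‖x‖ ≤ ‖g‖ :=
  lp.norm_mono (by norm_num) (fun n => (h n).trans (le_abs_self _))

lemma abs_apply_le (x : L2) (n : ℕ) : |x n| ≤ ‖x‖ := lp.norm_apply_le_norm (by norm_num) x n

lemma norm_add_le_nn (x y : XX 𝕜) : ‖x + y‖ ≤ ‖nn x + nn y‖ := by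
  refine norm_le_L2 (fun n => ?_)
  rw [map_add, lp.coeFn_add, Pi.add_apply, nn_apply, nn_apply]
  exact norm_add_le _ _

/-- Removal of a coordinate. -/
noncomputable def off (j : ℕ) (x : XX 𝕜) : XX 𝕜 := x - inj j (ev j x)

lemma ev_off_self (j : ℕ) (x : XX 𝕜) : ev j (off j x) = 0 := by
  unfold off
  rw [map_sub, ev_inj_self, sub_self]

lemma ev_off_ne {j n : ℕ} (h : n ≠ j) (x : XX 𝕜) : ev n (off j x) = ev n x := by
  unfold off
  rw [map_sub, ev_inj_ne h, sub_zero]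

lemma off_smul (j : ℕ) (c : 𝕜) (x : XX 𝕜) : off j (c • x) = c • off j x := by
  unfold off
  rw [map_smul, map_smul, smul_sub]

section Piece

variable {j : ℕ} {T : Hx 𝕜 j →L[𝕜] XX 𝕜} {δ : ℝ}

lemma nn_smul (α : 𝕜) (hα : ‖α‖ = 1) (x : XX 𝕜) : nn (α • x) = nn x := by
  refine lp.ext (funext fun n => ?_)
  rw [nn_apply, nn_apply, map_smul, norm_smul, hα, one_mul]

lemma norm_sub_nn (hδ : 0 ≤ δ) (hδ1 : δ ≤ 1) (hT : ∀ u, |‖T u‖ - ‖u‖| ≤ δ * ‖u‖)
    {u v : Hx 𝕜 j} (hu : ‖u‖ = 1) (hv : ‖v‖ = 1) (huv : 2 ≤ ‖u + v‖) :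
    ‖nn (T u) - nn (T v)‖ ≤ 4 * √δ := by
  have hpar := parallelogram_law_with_norm ℝ (nn (T u)) (nn (T v))
  have h1 := hT u
  have h2 := hT v
  have h3 := hT (u + v)
  rw [hu, abs_le] at h1
  rw [hv, abs_le] at h2
  rw [abs_le] at h3
  have h4 := norm_add_le_nn (T u) (T v)
  rw [← map_add] at h4
  rw [norm_nn, norm_nn] at hpar
  have h5 : 2 * (1 - δ) ≤ ‖nn (T u) + nn (T v)‖ := by nlinarith
  have h6 : ‖nn (T u) - nn (T v)‖ ^ 2 ≤ 16 * δ := by
    have h7 : ‖T u‖ * ‖T u‖ ≤ (1 + δ) * (1 + δ) :=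
      mul_self_le_mul_self (norm_nonneg _) (by linarith)
    have h8 : ‖T v‖ * ‖T v‖ ≤ (1 + δ) * (1 + δ) :=
      mul_self_le_mul_self (norm_nonneg _) (by linarith)
    have h9 : (2 * (1 - δ)) * (2 * (1 - δ)) ≤
        ‖nn (T u) + nn (T v)‖ * ‖nn (T u) + nn (T v)‖ :=
      mul_self_le_mul_self (by linarith) h5
    nlinarith
  have h7 : (4 * √δ) ^ 2 = 16 * δ := by
    rw [mul_pow, Real.sq_sqrt hδ]
    norm_num
  rw [← h7] at h6
  exact (abs_le_of_sq_le_sq' h6 (by positivity)).2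

/-- The common error bound. -/
noncomputable def zt (δ : ℝ) : ℝ := 16 * √δ

lemma zt_nonneg : 0 ≤ zt δ := by unfold zt; positivity

/-- Deviation from the norm sequence of the first basis vector. -/
noncomputable def dv (T : Hx 𝕜 j →L[𝕜] XX 𝕜) (u : Hx 𝕜 j) : L2 := nn (T u) - nn (T Hx.e₁)

lemma norm_dv (hδ : 0 ≤ δ) (hδ1 : δ ≤ 1) (hT : ∀ u, |‖T u‖ - ‖u‖| ≤ δ * ‖u‖)
    {u : Hx 𝕜 j} (hu : ‖u‖ = 1) : ‖dv T u‖ ≤ zt δ := by
  have h := Hx.chain (fun u => nn (T u)) (η := 4 * √δ)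
    (fun α u hα => by rw [map_smul, nn_smul α hα])
    (fun u v hu hv huv => norm_sub_nn hδ hδ1 hT hu hv huv) hu
  unfold dv zt
  linarith

lemma norm_ev_eq (T : Hx 𝕜 j →L[𝕜] XX 𝕜) (u : Hx 𝕜 j) (n : ℕ) :
    ‖ev n (T u)‖ = ‖ev n (T Hx.e₁)‖ + dv T u n := by
  unfold dv
  rw [lp.coeFn_sub, Pi.sub_apply, nn_apply, nn_apply]
  ring

lemma right_bound {n : ℕ} (hn : j < n) :
    gp j * ‖ev n (T Hx.e₁)‖ ≤
      2 * (|dv T Hx.e₂ n| + |dv T Hx.vp n| + |dv T Hx.vm n|) := by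
  set c := ‖ev n (T Hx.e₁)‖ with hc
  have hc0 : 0 ≤ c := norm_nonneg _
  have h1 := norm_ev_eq T Hx.vp n
  have h2 := norm_ev_eq T Hx.vm n
  have h3 := norm_ev_eq T Hx.e₂ n
  rw [← hc] at h1 h2 h3
  have a2 := neg_abs_le (dv T Hx.e₂ n)
  have ap := le_abs_self (dv T Hx.vp n)
  have am := le_abs_self (dv T Hx.vm n)
  have b2 := abs_nonneg (dv T Hx.e₂ n)
  have bp := abs_nonneg (dv T Hx.vp n)
  have bm := abs_nonneg (dv T Hx.vm n)
  have hk := Hx.key_ineq (ev n (T Hx.vp)) (ev n (T Hx.vm))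
    (c := c + |dv T Hx.vp n| + |dv T Hx.vm n|) (by linarith) (by linarith)
  rw [← map_add, ← map_add, ← map_sub, ← map_sub, Hx.vp_add_vm, Hx.vp_sub_vm, map_smul, map_smul,
    map_smul, map_smul, norm_smul, norm_smul, ← hc, h3, RCLike.norm_ofNat] at hk
  have hs := sp_gt j
  have hs2 := sp_lt j
  have hsn := sp_gt n
  have hsn2 := sp_lt n
  rw [Hx.norm_ofReal_nonneg (by linarith)] at hk
  have hg := gap_right hn
  have h5 : gp j * c ≤ (sp j - sp n) * c := by gcongr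
  set A := |dv T Hx.e₂ n|
  set B := |dv T Hx.vp n|
  set C := |dv T Hx.vm n|
  have h6 : 2 * (sp j - 1) * (c - A) ≤ 2 * (sp j - 1) * (c + dv T Hx.e₂ n) := by
    have : 0 ≤ 2 * (sp j - 1) := by linarith
    gcongr
    linarith
  nlinarith

lemma left_bound (hδ : 0 ≤ δ) (hδ1 : δ ≤ 1) (hT : ∀ u, |‖T u‖ - ‖u‖| ≤ δ * ‖u‖)
    {n : ℕ} (hn : n < j) : gp j * ‖ev n (T Hx.e₁)‖ ≤ 4 * zt δ := by
  set c := ‖ev n (T Hx.e₁)‖ with hc
  have hc0 : 0 ≤ c := norm_nonneg _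
  have hg0 := gp_pos j
  have hg := gap_left hn
  have hs := sp_gt j
  have hs2 := sp_lt j
  have hsn := sp_gt n
  have hsn2 := sp_lt n
  have hz : 0 ≤ zt δ := zt_nonneg
  rcases le_or_gt c (zt δ) with h | h
  · have h1 : gp j ≤ 1 := by linarith
    nlinarith
  · -- the coordinate map is almost a multiple of an isometry
    set S : Hx 𝕜 j →L[𝕜] Hx 𝕜 n := (ev n).comp T with hS
    have hSn : ∀ u, (c - zt δ) * ‖u‖ ≤ ‖S u‖ ∧ ‖S u‖ ≤ (c + zt δ) * ‖u‖ := by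
      have hunit : ∀ u : Hx 𝕜 j, ‖u‖ = 1 → |‖S u‖ - c| ≤ zt δ := by
        intro u hu
        have h1 := norm_ev_eq T u n
        have h2 : ‖S u‖ - c = dv T u n := by
          rw [hS, ContinuousLinearMap.comp_apply, h1]
          ring
        rw [h2]
        exact (abs_apply_le _ _).trans (norm_dv hδ hδ1 hT hu)
      intro u
      rcases eq_or_ne u 0 with h0 | h0
      · rw [h0, map_zero, norm_zero, norm_zero, mul_zero, mul_zero]
        exact ⟨le_rfl, le_rfl⟩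
      · have hpos : 0 < ‖u‖ := norm_pos_iff.mpr h0
        have h1 : ‖((‖u‖⁻¹ : ℝ) : 𝕜) • u‖ = 1 := by
          rw [norm_smul, Hx.norm_ofReal_nonneg (by positivity), inv_mul_cancel₀ hpos.ne']
        have h2 := hunit _ h1
        rw [map_smul, norm_smul, Hx.norm_ofReal_nonneg (by positivity), abs_le] at h2
        have h3 : ‖S u‖ = ‖u‖ * (‖u‖⁻¹ * ‖S u‖) := by
          rw [← mul_assoc, mul_inv_cancel₀ hpos.ne', one_mul]
        constructor
        · rw [h3, mul_comm]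
          gcongr
          linarith
        · rw [h3, mul_comm (c + zt δ)]
          gcongr
          linarith
    have hcz : 0 < c - zt δ := by linarith
    have hinj : Function.Injective S.toLinearMap := by
      rw [injective_iff_map_eq_zero]
      intro u hu
      have h1 := (hSn u).1
      have h2 : S u = 0 := hu
      rw [h2, norm_zero] at h1
      have h3 : ‖u‖ ≤ 0 := by
        by_contra h4
        have := mul_pos hcz (not_le.mp h4)
        linarith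
      exact norm_le_zero_iff.mp h3
    have hfr : Module.finrank 𝕜 (Hx 𝕜 j) = Module.finrank 𝕜 (Hx 𝕜 n) := rfl
    have hsurj : Function.Surjective S.toLinearMap :=
      (LinearMap.injective_iff_surjective_of_finrank_eq_finrank hfr).mp hinj
    obtain ⟨x, hx⟩ := hsurj Hx.vp
    obtain ⟨y, hy⟩ := hsurj Hx.vm
    have hx' : S x = Hx.vp := hx
    have hy' : S y = Hx.vm := hy
    have hxn : ‖x‖ ≤ (c - zt δ)⁻¹ := by
      have := (hSn x).1
      rw [hx', Hx.norm_vp] at this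
      rw [← one_div, le_div_iff₀ hcz]
      linarith
    have hyn : ‖y‖ ≤ (c - zt δ)⁻¹ := by
      have := (hSn y).1
      rw [hy', Hx.norm_vm] at this
      rw [← one_div, le_div_iff₀ hcz]
      linarith
    have hk := Hx.key_ineq x y hxn hyn
    have h1 := (hSn (x + y)).2
    have h2 := (hSn (x - y)).2
    rw [map_add, hx', hy', Hx.vp_add_vm, norm_smul, Hx.norm_e₁, RCLike.norm_ofNat, mul_one] at h1
    rw [map_sub, hx', hy', Hx.vp_sub_vm, norm_smul, Hx.norm_e₂,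
      Hx.norm_ofReal_nonneg (by linarith), mul_one] at h2
    have h3 : 2 * sp n ≤ (c + zt δ) * (2 * sp j * (c - zt δ)⁻¹) := by
      calc 2 * sp n = 2 + 2 * (sp n - 1) := by ring
        _ ≤ (c + zt δ) * ‖x + y‖ + (c + zt δ) * ‖x - y‖ := by linarith
        _ = (c + zt δ) * (‖x + y‖ + ‖x - y‖) := by ring
        _ ≤ _ := by gcongr
    have h4 : 2 * sp n * (c - zt δ) ≤ (c + zt δ) * (2 * sp j) := by
      calc 2 * sp n * (c - zt δ) ≤ (c + zt δ) * (2 * sp j * (c - zt δ)⁻¹) * (c - zt δ) := by gcongr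
        _ = (c + zt δ) * (2 * sp j) * ((c - zt δ)⁻¹ * (c - zt δ)) := by ring
        _ = (c + zt δ) * (2 * sp j) := by rw [inv_mul_cancel₀ hcz.ne', mul_one]
    have h5 : gp j * c ≤ (sp n - sp j) * c := by gcongr
    nlinarith

/-- The constant of the off-diagonal bound. -/
noncomputable def kc (j : ℕ) : ℝ := (6 + 4 * j) / gp j + 1

lemma kc_pos (j : ℕ) : 0 < kc j := by
  have := gp_pos j
  unfold kc
  positivity

/-- The off-diagonal bound. -/
lemma off_bound (hδ : 0 ≤ δ) (hδ1 : δ ≤ 1) (hT : ∀ u, |‖T u‖ - ‖u‖| ≤ δ * ‖u‖)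
    {u : Hx 𝕜 j} (hu : ‖u‖ = 1) : ‖off j (T u)‖ ≤ kc j * zt δ := by
  have hg0 := gp_pos j
  have hz : 0 ≤ zt δ := zt_nonneg
  set w : L2 := ∑ n ∈ Finset.range j, lp.single 2 n (1 : ℝ) with hw
  have hwn : ∀ n, w n = if n < j then 1 else 0 := by
    intro n
    rw [hw, lp.coeFn_sum, Finset.sum_apply]
    simp only [lp.coeFn_single, Pi.single_apply, Finset.sum_ite_eq, Finset.mem_range]
  set g : L2 := (2 / gp j) • (ab (dv T Hx.e₂) + ab (dv T Hx.vp) + ab (dv T Hx.vm)) +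
    ab (dv T u) + (4 * zt δ / gp j) • w with hg
  have hgn : ∀ n, g n = 2 / gp j * (|dv T Hx.e₂ n| + |dv T Hx.vp n| + |dv T Hx.vm n|) +
      |dv T u n| + 4 * zt δ / gp j * (if n < j then 1 else 0) := by
    intro n
    rw [← hwn]
    rfl
  have h1 : ‖off j (T u)‖ ≤ ‖g‖ := by
    refine norm_le_L2 (fun n => ?_)
    rw [hgn]
    rcases lt_trichotomy n j with h | h | h
    · rw [ev_off_ne h.ne, if_pos h, norm_ev_eq]
      have h2 := left_bound hδ hδ1 hT h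
      have h3 : ‖ev n (T Hx.e₁)‖ ≤ 4 * zt δ / gp j := by
        rw [le_div_iff₀ hg0]
        linarith
      have h4 := le_abs_self (dv T u n)
      have h5 : 0 ≤ 2 / gp j * (|dv T Hx.e₂ n| + |dv T Hx.vp n| + |dv T Hx.vm n|) := by
        positivity
      linarith
    · rw [h, ev_off_self, norm_zero]
      positivity
    · rw [ev_off_ne h.ne', if_neg (not_lt.mpr h.le), norm_ev_eq, mul_zero, add_zero]
      have h2 := right_bound (T := T) h
      have h3 : ‖ev n (T Hx.e₁)‖ ≤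
          2 / gp j * (|dv T Hx.e₂ n| + |dv T Hx.vp n| + |dv T Hx.vm n|) := by
        rw [div_mul_eq_mul_div, le_div_iff₀ hg0]
        linarith
      have h4 := le_abs_self (dv T u n)
      linarith
  have hd1 := norm_dv hδ hδ1 hT (Hx.norm_e₂ (𝕜 := 𝕜) (n := j))
  have hd2 := norm_dv hδ hδ1 hT (Hx.norm_vp (𝕜 := 𝕜) (n := j))
  have hd3 := norm_dv hδ hδ1 hT (Hx.norm_vm (𝕜 := 𝕜) (n := j))
  have hd4 := norm_dv hδ hδ1 hT hu
  have hw1 : ‖w‖ ≤ j := by
    rw [hw]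
    refine (norm_sum_le _ _).trans ?_
    have : ∀ n ∈ Finset.range j, ‖(lp.single 2 n (1 : ℝ) : L2)‖ ≤ 1 := fun n _ => by
      rw [lp.norm_single (E := fun _ : ℕ => ℝ) (by norm_num)]
      simp
    refine (Finset.sum_le_card_nsmul _ _ _ this).trans ?_
    simp
  have h2 : ‖g‖ ≤ 2 / gp j * (zt δ + zt δ + zt δ) + zt δ + 4 * zt δ / gp j * j := by
    rw [hg]
    refine (norm_add_le _ _).trans (add_le_add ((norm_add_le _ _).trans (add_le_add ?_ ?_)) ?_)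
    · rw [norm_smul, Real.norm_of_nonneg (by positivity)]
      gcongr
      refine (norm_add₃_le).trans ?_
      rw [norm_ab, norm_ab, norm_ab]
      linarith
    · rw [norm_ab]
      exact hd4
    · rw [norm_smul, Real.norm_of_nonneg (by positivity)]
      gcongr
  refine (h1.trans h2).trans (le_of_eq ?_)
  unfold kc
  field_simp
  ring

lemma off_bound' (hδ : 0 ≤ δ) (hδ1 : δ ≤ 1) (hT : ∀ u, |‖T u‖ - ‖u‖| ≤ δ * ‖u‖)
    (u : Hx 𝕜 j) : ‖off j (T u)‖ ≤ kc j * zt δ * ‖u‖ := by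
  rcases eq_or_ne u 0 with h0 | h0
  · rw [h0, map_zero, norm_zero, mul_zero]
    unfold off
    rw [map_zero, map_zero, sub_zero, norm_zero]
  · have hpos : 0 < ‖u‖ := norm_pos_iff.mpr h0
    have h1 : ‖((‖u‖⁻¹ : ℝ) : 𝕜) • u‖ = 1 := by
      rw [norm_smul, Hx.norm_ofReal_nonneg (by positivity), inv_mul_cancel₀ hpos.ne']
    have h2 := off_bound hδ hδ1 hT h1
    rw [map_smul, off_smul, norm_smul, Hx.norm_ofReal_nonneg (by positivity)] at h2
    have h3 : ‖off j (T u)‖ = ‖u‖ * (‖u‖⁻¹ * ‖off j (T u)‖) := by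
      rw [← mul_assoc, mul_inv_cancel₀ hpos.ne', one_mul]
    rw [h3, mul_comm]
    gcongr

end Piece

end Pool.Agent.MP_65983e_an
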